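import Mathlib

/-! Counting the solutions of families of systems of equations on a compact space. -/

namespace Pool.TP.Cx

open Filter Topology Set

section count

variable {L X : Type*} [TopologicalSpace L] [TopologicalSpace X]

/-- the solutions of the system `c` -/
def Sl (Z : Set (L × X)) (c : L) : Set X := {x | (c, x) ∈ Z}

/-- `x` is a solution of `c` which deforms uniquely -/
def Pers (Z : Set (L × X)) (c : L) (x : X) : Prop :=
  ∃ ξ : L → X, Tendsto ξ (𝓝 c) (𝓝 x) ∧ (∀ᶠ c' in 𝓝 c, (c', ξ c') ∈ Z) ∧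
    ∀ᶠ p in 𝓝 (c, x), p ∈ Z → p.2 = ξ p.1

/-- all solutions deform uniquely -/
def Good (Z : Set (L × X)) (c : L) : Prop := ∀ x, (c, x) ∈ Z → Pers Z c x

lemma Pers.stable {Z : Set (L × X)} {c : L} {x : X} (h : Pers Z c x) {U : Set X}
    (hU : U ∈ 𝓝 x) : ∀ᶠ c' in 𝓝 c, ∃ y ∈ U, (c', y) ∈ Z := by
  obtain ⟨ξ, h1, h2, -⟩ := h
  filter_upwards [h2, h1 hU] with c' h3 h4
  exact ⟨_, h4, h3⟩

lemma eq_of_tendsto [T2Space X] {ξ : L → X} {c : L} {x : X} (h : Tendsto ξ (𝓝 c) (𝓝 x)) :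
    ξ c = x := by
  by_contra hne
  have h2 : ∀ᶠ c' in 𝓝 c, ξ c' ∈ ({ξ c}ᶜ : Set X) :=
    h.eventually (isOpen_compl_singleton.mem_nhds (by
      rw [Set.mem_compl_iff, Set.mem_singleton_iff]
      exact fun h => hne h.symm))
  exact h2.self_of_nhds rfl

theorem count [T2Space X] [CompactSpace X] {Z : Set (L × X)} (hZ : IsClosed Z) {c : L}
    {B : Set X} (hc : ∀ x ∈ B, (c, x) ∈ Z → Pers Z c x) (hB : IsOpen B)
    (hfr : ∀ x ∈ frontier B, (c, x) ∉ Z) :
    (Sl Z c ∩ B).Finite ∧ ∀ᶠ c' in 𝓝 c, (Sl Z c' ∩ B).encard = (Sl Z c ∩ B).encard := by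
  classical
  rcases isEmpty_or_nonempty X with hX | hX
  · refine ⟨?_, Eventually.of_forall fun c' => ?_⟩
    · rw [Set.eq_empty_of_isEmpty (Sl Z c ∩ B)]
      exact Set.finite_empty
    · rw [Set.eq_empty_of_isEmpty (Sl Z c ∩ B), Set.eq_empty_of_isEmpty (Sl Z c' ∩ B)]
  choose! ξ hξ1 hξ2 hξ3 using hc
  have hcl : ∀ x ∈ closure B, (c, x) ∈ Z → x ∈ B := by
    intro x hx hxZ
    by_contra hxB
    refine hfr x ?_ hxZ
    rw [hB.frontier_eq]
    exact ⟨hx, hxB⟩
  have hcpt : ∃ S0 : Set X, S0.Finite ∧ S0 ⊆ Sl Z c ∩ B ∧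
      ∀ᶠ c' in 𝓝 c, ∀ x ∈ closure B, (c', x) ∈ Z → ∃ y ∈ S0, x = ξ y c' := by
    refine (isClosed_closure (s := B)).isCompact.induction_on (p := fun s => ∃ S0 : Set X,
      S0.Finite ∧ S0 ⊆ Sl Z c ∩ B ∧
      ∀ᶠ c' in 𝓝 c, ∀ x ∈ s, (c', x) ∈ Z → ∃ y ∈ S0, x = ξ y c') ?_ ?_ ?_ ?_
    · exact ⟨∅, Set.finite_empty, Set.empty_subset _, Eventually.of_forall fun g x hx => hx.elim⟩
    · rintro s t hst ⟨S0, h1, h2, h3⟩
      refine ⟨S0, h1, h2, ?_⟩
      filter_upwards [h3] with g hg x hx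
      exact hg x (hst hx)
    · rintro s t ⟨S0, h1, h2, h3⟩ ⟨S1, h4, h5, h6⟩
      refine ⟨S0 ∪ S1, h1.union h4, Set.union_subset h2 h5, ?_⟩
      filter_upwards [h3, h6] with g hg hg' x hx hmem
      rcases hx with hx | hx
      · obtain ⟨y, hy, h⟩ := hg x hx hmem
        exact ⟨y, Or.inl hy, h⟩
      · obtain ⟨y, hy, h⟩ := hg' x hx hmem
        exact ⟨y, Or.inr hy, h⟩
    · intro x hx
      by_cases hxZ : (c, x) ∈ Z
      · have hxB := hcl x hx hxZ
        have h3 := hξ3 x hxB hxZ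
        rw [nhds_prod_eq] at h3
        obtain ⟨pa, hpa, pb, hpb, h4⟩ := Filter.eventually_prod_iff.1 h3
        refine ⟨{x' | pb x'}, mem_nhdsWithin_of_mem_nhds hpb, {x}, Set.finite_singleton x,
          Set.singleton_subset_iff.2 ⟨hxZ, hxB⟩, ?_⟩
        filter_upwards [hpa] with g hg x' hx' hmem
        exact ⟨x, rfl, h4 hg hx' hmem⟩
      · have h3 : ∀ᶠ p in 𝓝 (c, x), p ∉ Z := hZ.isOpen_compl.mem_nhds hxZ
        rw [nhds_prod_eq] at h3
        obtain ⟨pa, hpa, pb, hpb, h4⟩ := Filter.eventually_prod_iff.1 h3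
        refine ⟨{x' | pb x'}, mem_nhdsWithin_of_mem_nhds hpb, ∅, Set.finite_empty,
          Set.empty_subset _, ?_⟩
        filter_upwards [hpa] with g hg x' hx' hmem
        exact absurd hmem (h4 hg hx')
  obtain ⟨S0, hfin, hsub, hcov⟩ := hcpt
  have hone : ∀ y ∈ S0, ξ y c = y := fun y hy =>
    eq_of_tendsto (hξ1 y (hsub hy).2 (hsub hy).1)
  have hS : Sl Z c ∩ B = S0 := by
    refine Set.Subset.antisymm ?_ hsub
    intro x hx
    obtain ⟨y, hy, h⟩ := hcov.self_of_nhds x (subset_closure hx.2) hx.1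
    rw [hone y hy] at h
    rwa [h]
  refine ⟨by rw [hS]; exact hfin, ?_⟩
  obtain ⟨U, hU, hdis⟩ := hfin.t2_separation
  have h1 : ∀ᶠ c' in 𝓝 c, ∀ y ∈ S0, (c', ξ y c') ∈ Z :=
    (Set.Finite.eventually_all hfin).2 fun y hy => hξ2 y (hsub hy).2 (hsub hy).1
  have h2 : ∀ᶠ c' in 𝓝 c, ∀ y ∈ S0, ξ y c' ∈ U y ∩ B := by
    refine (Set.Finite.eventually_all hfin).2 fun y hy => ?_
    exact (hξ1 y (hsub hy).2 (hsub hy).1).eventually
      (((hU y).2.inter hB).mem_nhds ⟨(hU y).1, (hsub hy).2⟩)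
  filter_upwards [hcov, h1, h2] with c' h3 h4 h5
  have h6 : Sl Z c' ∩ B = (fun y => ξ y c') '' S0 := by
    apply Set.Subset.antisymm
    · intro x hx
      obtain ⟨y, hy, h⟩ := h3 x (subset_closure hx.2) hx.1
      exact ⟨y, hy, h.symm⟩
    · rintro _ ⟨y, hy, rfl⟩
      exact ⟨h4 y hy, (h5 y hy).2⟩
  rw [h6, hS]
  refine Set.InjOn.encard_image ?_
  intro y hy y' hy' heq
  by_contra hne
  have h7 := hdis hy hy' hne
  have h8 : ξ y c' ∈ U y := (h5 y hy).1
  have h9 : ξ y' c' ∈ U y' := (h5 y' hy').1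
  have heq' : ξ y c' = ξ y' c' := heq
  rw [← heq'] at h9
  exact Set.disjoint_left.1 h7 h8 h9

theorem count_univ [T2Space X] [CompactSpace X] {Z : Set (L × X)} (hZ : IsClosed Z) {c : L}
    (hc : Good Z c) :
    (Sl Z c).Finite ∧ ∀ᶠ c' in 𝓝 c, (Sl Z c').encard = (Sl Z c).encard := by
  have h := count hZ (B := Set.univ) (fun x _ => hc x) isOpen_univ
    (by rw [frontier_univ]; exact fun x hx => hx.elim)
  simpa using h

theorem path [T2Space X] [CompactSpace X] {Z : Set (L × X)} (hZ : IsClosed Z)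
    {γ : unitInterval → L} (hγ : Continuous γ) {B : Set X} (hB : IsOpen B)
    (hg : ∀ s, ∀ x ∈ B, (γ s, x) ∈ Z → Pers Z (γ s) x)
    (hfr : ∀ s, ∀ x ∈ frontier B, (γ s, x) ∉ Z) :
    (Sl Z (γ 0) ∩ B).encard = (Sl Z (γ 1) ∩ B).encard := by
  have h1 : IsLocallyConstant fun s => (Sl Z (γ s) ∩ B).encard := by
    rw [IsLocallyConstant.iff_eventually_eq]
    intro s
    exact hγ.continuousAt.eventually (count hZ (hg s) hB (hfr s)).2
  exact h1.apply_eq_of_isPreconnected isPreconnected_univ (Set.mem_univ _) (Set.mem_univ _)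

end count

section line

variable {L : Type*} [NormedAddCommGroup L] [NormedSpace ℂ L]

/-- a path of good systems -/
theorem exists_path {G U : Set L} {a b : L} (ha : a ∈ G) (hb : b ∈ G)
    (hline : {z : ℂ | a + z • (b - a) ∉ G}.Finite) (hU : IsOpen U) (hconv : Convex ℝ U)
    (haU : a ∈ U) (hbU : b ∈ U) :
    ∃ γ : unitInterval → L, Continuous γ ∧ γ 0 = a ∧ γ 1 = b ∧ ∀ s, γ s ∈ G ∧ γ s ∈ U := by
  classical
  let w : ℝ × ℝ → L := fun p => a + ((p.2 : ℂ) + ((p.1 * (p.2 * (1 - p.2)) : ℝ) : ℂ) *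
    Complex.I) • (b - a)
  have hw : Continuous w := by
    simp only [w]
    fun_prop
  have h1 : ∀ s ∈ Icc (0 : ℝ) 1, ∀ᶠ p in 𝓝 ((0, s) : ℝ × ℝ), w p ∈ U := by
    intro s hs
    have h2 : w (0, s) ∈ U := by
      have h3 : w (0, s) = (1 - s) • a + s • b := by
        simp only [w, zero_mul, Complex.ofReal_zero, add_zero]
        rw [show ((s : ℂ) • (b - a) : L) = s • (b - a) from
          Complex.coe_smul s (b - a)]
        rw [smul_sub, sub_smul, one_smul]
        abel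
      rw [h3]
      exact hconv haU hbU (by linarith [hs.2]) hs.1 (by ring)
    exact hw.continuousAt.eventually (hU.mem_nhds h2)
  have h4 : ∀ᶠ t in 𝓝 (0 : ℝ), ∀ s ∈ Icc (0 : ℝ) 1, w (t, s) ∈ U := by
    refine isCompact_Icc.induction_on (p := fun K => ∀ᶠ t in 𝓝 (0 : ℝ), ∀ s ∈ K, w (t, s) ∈ U)
      ?_ ?_ ?_ ?_
    · exact Eventually.of_forall fun t s hs => hs.elim
    · intro s t hst h
      filter_upwards [h] with r hr x hx
      exact hr x (hst hx)
    · intro s t hs ht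
      filter_upwards [hs, ht] with r h5 h6 x hx
      rcases hx with hx | hx
      · exact h5 x hx
      · exact h6 x hx
    · intro s hs
      have h3 := h1 s hs
      rw [nhds_prod_eq] at h3
      obtain ⟨pa, hpa, pb, hpb, h4⟩ := Filter.eventually_prod_iff.1 h3
      exact ⟨{x' | pb x'}, mem_nhdsWithin_of_mem_nhds hpb, by
        filter_upwards [hpa] with t ht s' hs'
        exact h4 ht hs'⟩
  have h5 : ∀ᶠ t in 𝓝[≠] (0 : ℝ), t ∉ (fun z : ℂ => z.im / (z.re * (1 - z.re))) ''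
      {z : ℂ | a + z • (b - a) ∉ G} := by
    have h6 : (((fun z : ℂ => z.im / (z.re * (1 - z.re))) ''
      {z : ℂ | a + z • (b - a) ∉ G}) \ {0}).Finite := (hline.image _).subset Set.sdiff_subset
    have h7 : ∀ᶠ t in 𝓝 (0 : ℝ), t ∉ (((fun z : ℂ => z.im / (z.re * (1 - z.re))) ''
      {z : ℂ | a + z • (b - a) ∉ G}) \ {0}) :=
      h6.isClosed.isOpen_compl.mem_nhds (by simp)
    have h8 : ∀ᶠ t in 𝓝[≠] (0 : ℝ), t ≠ 0 := eventually_mem_nhdsWithin
    filter_upwards [h7.filter_mono nhdsWithin_le_nhds, h8] with t h9 h10 h11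
    exact h9 ⟨h11, h10⟩
  obtain ⟨t, ht1, ht2, ht3⟩ := ((h4.filter_mono nhdsWithin_le_nhds).and
    (h5.and (eventually_mem_nhdsWithin : ∀ᶠ t in 𝓝[≠] (0 : ℝ), t ∈ ({0}ᶜ : Set ℝ)))).exists
  refine ⟨fun s => w (t, s), by fun_prop, by simp [w], by simp [w], ?_⟩
  intro s
  refine ⟨?_, ht1 s s.2⟩
  by_contra hbad
  rcases eq_or_lt_of_le s.2.1 with h0 | h0
  · apply hbad
    have : w (t, (s : ℝ)) = a := by simp [w, ← h0]
    change w (t, (s : ℝ)) ∈ G
    rwa [this]
  rcases eq_or_lt_of_le s.2.2 with h1' | h1'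
  · apply hbad
    have : w (t, (s : ℝ)) = b := by simp [w, h1']
    change w (t, (s : ℝ)) ∈ G
    rwa [this]
  apply ht2
  refine ⟨((s : ℝ) : ℂ) + ((t * ((s : ℝ) * (1 - (s : ℝ))) : ℝ) : ℂ) * Complex.I, hbad, ?_⟩
  have hne : (s : ℝ) * (1 - s) ≠ 0 := by
    have : 0 < (s : ℝ) * (1 - s) := mul_pos h0 (by linarith)
    exact this.ne'
  simp only [Complex.add_re, Complex.add_im, Complex.ofReal_re, Complex.ofReal_im,
    Complex.mul_re, Complex.mul_im, Complex.I_re, Complex.I_im]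
  simp only [mul_zero, mul_one, zero_add, add_zero, sub_self]
  rw [mul_div_assoc, div_self hne, mul_one]

end line

section main

variable {L X : Type*} [NormedAddCommGroup L] [NormedSpace ℂ L] [TopologicalSpace X]
  [T2Space X] [CompactSpace X]

/-- the hypotheses on a family of systems -/
structure Fam (Z : Set (L × X)) (G : Set L) : Prop where
  closed : IsClosed Z
  dense : Dense G
  good : ∀ c ∈ G, Good Z c
  line : ∀ a ∈ G, ∀ b ∈ G, {z : ℂ | a + z • (b - a) ∉ G}.Finite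
  pert : ∀ c x, (c, x) ∈ Z → ∃ᶠ c' in 𝓝 c, (c', x) ∈ Z ∧ Pers Z c' x

variable {Z : Set (L × X)} {G : Set L}

/-- the number of solutions of a good system does not depend on the system -/
theorem Fam.card_eq_of_mem (h : Fam Z G) {a b : L} (ha : a ∈ G) (hb : b ∈ G) :
    (Sl Z a).encard = (Sl Z b).encard := by
  obtain ⟨γ, h1, h2, h3, h4⟩ := exists_path ha hb (h.line a ha b hb) isOpen_univ convex_univ
    (Set.mem_univ _) (Set.mem_univ _)
  have h5 := path h.closed h1 isOpen_univ (fun s x _ => h.good _ (h4 s).1 x)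
    (by rw [frontier_univ]; exact fun s x hx => hx.elim)
  simpa [h2, h3] using h5

omit [T2Space X] [CompactSpace X] in
/-- near a system there are systems of `G` with a given property which holds near it -/
lemma Fam.exists_near (h : Fam Z G) {c : L} {p : L → Prop} (hp : ∀ᶠ c' in 𝓝 c, p c') :
    ∃ c' ∈ G, p c' := by
  obtain ⟨U, hU, hUo, hcU⟩ := eventually_nhds_iff.1 hp
  obtain ⟨c', h1, h2⟩ := h.dense.exists_mem_open hUo ⟨c, hcU⟩
  exact ⟨c', h1, hU c' h2⟩

theorem Fam.card_eq (h : Fam Z G) {a b : L} (ha : Good Z a) (hb : Good Z b) :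
    (Sl Z a).encard = (Sl Z b).encard := by
  obtain ⟨a', ha', h1⟩ := h.exists_near (count_univ h.closed ha).2
  obtain ⟨b', hb', h2⟩ := h.exists_near (count_univ h.closed hb).2
  rw [← h1, ← h2]
  exact h.card_eq_of_mem ha' hb'

/-- A system with as many solutions which deform uniquely as a good system has no other
solution. -/
theorem Fam.all_of_card (h : Fam Z G) {a b : L} (ha : Good Z a) {S : Set X}
    (hS : ∀ x ∈ S, Pers Z b x) (hcard : (Sl Z a).encard ≤ S.encard) {W : X}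
    (hW : (b, W) ∈ Z) : W ∈ S := by
  classical
  by_contra hWS
  obtain ⟨S1, hS1, hc1⟩ := Set.exists_subset_encard_eq hcard
  have hfin : S1.Finite := by
    rw [← Set.encard_lt_top_iff, hc1, Set.encard_lt_top_iff]
    exact (count_univ h.closed ha).1
  have hW1 : W ∉ S1 := fun h => hWS (hS1 h)
  obtain ⟨U, hU, hdis⟩ := (hfin.insert W).t2_separation
  have h1 : ∀ᶠ c in 𝓝 b, ∀ x ∈ S1, ∃ y ∈ U x, (c, y) ∈ Z :=
    (Set.Finite.eventually_all hfin).2 fun x hx =>
      (hS x (hS1 hx)).stable ((hU x).2.mem_nhds (hU x).1)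
  obtain ⟨c2, ⟨-, hc2⟩, h2⟩ := ((h.pert b W hW).and_eventually
    (eventually_eventually_nhds.2 h1)).exists
  have h3 := hc2.stable ((hU W).2.mem_nhds (hU W).1)
  obtain ⟨c3, hc3, h4, h5⟩ := h.exists_near (h2.and h3)
  obtain ⟨a', ha', h6⟩ := h.exists_near (count_univ h.closed ha).2
  have h7 : ∀ x ∈ insert W S1, ∃ y ∈ U x, (c3, y) ∈ Z := by
    intro x hx
    rcases Set.mem_insert_iff.1 hx with rfl | hx
    · exact h5
    · exact h4 x hx
  choose! f hf hfZ using h7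
  have h8 : (insert W S1).encard ≤ (Sl Z c3).encard := by
    have h9 : (f '' insert W S1).encard = (insert W S1).encard := by
      refine Set.InjOn.encard_image ?_
      intro x hx y hy hxy
      by_contra hne
      have h10 := hf x hx
      have h11 := hf y hy
      rw [← hxy] at h11
      exact Set.disjoint_left.1 (hdis hx hy hne) h10 h11
    rw [← h9]
    refine Set.encard_le_encard ?_
    rintro _ ⟨x, hx, rfl⟩
    exact hfZ x hx
  rw [Set.encard_insert_of_notMem hW1, hc1, h.card_eq_of_mem hc3 ha', h6] at h8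
  have h12 : (Sl Z a).encard ≠ ⊤ := by
    rw [Set.encard_ne_top_iff]
    exact (count_univ h.closed ha).1
  exact absurd h8 (not_le.2 (ENat.lt_add_one_iff h12 |>.2 le_rfl))

/-- If good systems `c j` tend to `f`, all their solutions are in the open set `B`, and `f` has no
solution on the boundary of `B`, then all solutions of `f` are in `B`. -/
theorem Fam.all_in (h : Fam Z G) {ι : Type*} {l : Filter ι} [l.NeBot] {c : ι → L} {f : L}
    (hc : Tendsto c l (𝓝 f)) (hg : ∀ᶠ j in l, Good Z (c j)) {B : Set X} (hB : IsOpen B)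
    (hsub : ∀ᶠ j in l, ∀ x, (c j, x) ∈ Z → x ∈ B) (hfr : ∀ x ∈ frontier B, (f, x) ∉ Z) {W : X}
    (hW : (f, W) ∈ Z) : W ∈ B := by
  classical
  by_contra hWB
  have hWc : W ∉ closure B := by
    intro h1
    exact hfr W (by rw [hB.frontier_eq]; exact ⟨h1, hWB⟩) hW
  have h1 : ∀ᶠ c' in 𝓝 f, ∀ x ∈ frontier B, (c', x) ∉ Z := by
    refine (isClosed_frontier (s := B)).isCompact.induction_on
      (p := fun s => ∀ᶠ c' in 𝓝 f, ∀ x ∈ s ∩ frontier B, (c', x) ∉ Z) ?_ ?_ ?_ ?_ |>.mono ?_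
    · exact Eventually.of_forall fun g x hx => hx.1.elim
    · intro s t hst h2
      filter_upwards [h2] with g hg x hx
      exact hg x ⟨hst hx.1, hx.2⟩
    · intro s t h2 h3
      filter_upwards [h2, h3] with g hg hg' x hx
      rcases hx with ⟨hx | hx, hx'⟩
      · exact hg x ⟨hx, hx'⟩
      · exact hg' x ⟨hx, hx'⟩
    · intro x hx
      have h3 : ∀ᶠ p in 𝓝 (f, x), p ∉ Z := h.closed.isOpen_compl.mem_nhds (hfr x hx)
      rw [nhds_prod_eq] at h3
      obtain ⟨pa, hpa, pb, hpb, h4⟩ := Filter.eventually_prod_iff.1 h3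
      refine ⟨{x' | pb x'}, mem_nhdsWithin_of_mem_nhds hpb, ?_⟩
      filter_upwards [hpa] with g hg x' hx'
      exact h4 hg hx'.1
    · intro c' h5 x hx
      exact h5 x ⟨hx, hx⟩
  obtain ⟨δ, hδ, hball⟩ := Metric.eventually_nhds_iff_ball.1 h1
  have hbo : IsOpen (Metric.ball f δ) := Metric.isOpen_ball
  have hbf : ∀ᶠ c' in 𝓝 f, c' ∈ Metric.ball f δ := Metric.ball_mem_nhds f hδ
  obtain ⟨f', ⟨-, hf'⟩, hf'b⟩ := ((h.pert f W hW).and_eventually hbf).exists
  obtain ⟨c2, hc2, ⟨y, hy, hyZ⟩, hc2b⟩ := h.exists_near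
    ((hf'.stable (isClosed_closure.isOpen_compl.mem_nhds hWc)).and (hbo.mem_nhds hf'b))
  obtain ⟨j, hj1, hj2, hj3⟩ := (hg.and (hsub.and (hc.eventually hbf))).exists
  have h2 := count h.closed (c := c j) (B := B) (fun x _ => hj1 x) hB (hball _ hj3)
  have h3 := count_univ h.closed hj1
  have h4 : Sl Z (c j) ∩ B = Sl Z (c j) := Set.inter_eq_left.2 hj2
  rw [h4] at h2
  obtain ⟨c3, hc3, ⟨h5, h6⟩, h7⟩ := h.exists_near ((h2.2.and h3.2).and (hbo.mem_nhds hj3))
  obtain ⟨γ, g1, g2, g3, g4⟩ := exists_path hc3 hc2 (h.line _ hc3 _ hc2) hbo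
    (convex_ball f δ) h7 hc2b
  have h8 := path h.closed g1 hB (fun s x _ => h.good _ (g4 s).1 x)
    (fun s => hball _ (g4 s).2)
  rw [g2, g3] at h8
  have h9 := h.card_eq_of_mem hc3 hc2
  have hfin2 : (Sl Z c2).Finite := (count_univ h.closed (h.good _ hc2)).1
  have h10 : (Sl Z c2).encard ≤ (Sl Z c2 ∩ B).encard := by
    rw [← h8, h5, ← h6, h9]
  have h11 : Sl Z c2 ∩ B = Sl Z c2 :=
    (hfin2.subset Set.inter_subset_left).eq_of_subset_of_encard_le Set.inter_subset_left h10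
  have h12 : y ∈ Sl Z c2 ∩ B := by
    rw [h11]
    exact hyZ
  exact hy (subset_closure h12.2)

end main

end Pool.TP.Cx
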