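import Mathlib

/-! Linear forms in Pluecker coordinates, expansion of the form of a moving flag. -/

namespace Pool.TP

open Module Polynomial

variable {k n : ℕ}

/-- the value of a linear form in the Pluecker coordinates -/
noncomputable def evl (c : (Fin k → Fin n) → ℂ) (B : Matrix (Fin k) (Fin n) ℂ) : ℂ :=
  ∑ s : Fin k → Fin n, c s * (B.submatrix id s).det

lemma det_mul_expand {R : Type*} [CommRing R] (B : Matrix (Fin k) (Fin n) R)
    (M : Matrix (Fin n) (Fin k) R) :
    (B * M).det = ∑ s : Fin k → Fin n, (∏ b, M (s b) b) * (B.submatrix id s).det := by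
  have h1 : (B * M).det = Matrix.detRowAlternating
      (fun b => ∑ j : Fin n, M j b • (fun a => B a j)) := by
    rw [← Matrix.det_transpose]
    change Matrix.det _ = Matrix.det _
    congr 1
    ext b a
    simp only [Matrix.transpose_apply, Matrix.mul_apply, Finset.sum_apply, Pi.smul_apply,
      smul_eq_mul]
    exact Finset.sum_congr rfl fun j _ => mul_comm _ _
  have h2 : Matrix.detRowAlternating (fun b => ∑ j : Fin n, M j b • (fun a => B a j)) =
      ∑ s : Fin k → Fin n, Matrix.detRowAlternating (fun b => M (s b) b • (fun a => B a (s b))) := by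
    have h3 := (Matrix.detRowAlternating (n := Fin k) (R := R)).toMultilinearMap.map_sum
      (fun b (j : Fin n) => M j b • (fun a => B a j))
    exact h3
  rw [h1, h2]
  refine Finset.sum_congr rfl fun s _ => ?_
  have h4 := (Matrix.detRowAlternating (n := Fin k) (R := R)).toMultilinearMap.map_smul_univ
    (fun b => M (s b) b) (fun b a => B a (s b))
  have h5 : (Matrix.detRowAlternating (fun b => M (s b) b • (fun a => B a (s b))) : R) =
      (∏ b, M (s b) b) • Matrix.detRowAlternating (fun b a => B a (s b)) := h4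
  rw [h5, smul_eq_mul]
  congr 1
  rw [← Matrix.det_transpose]
  rfl

lemma evl_mul_left (c : (Fin k → Fin n) → ℂ) (P : Matrix (Fin k) (Fin k) ℂ)
    (B : Matrix (Fin k) (Fin n) ℂ) : evl c (P * B) = P.det * evl c B := by
  rw [evl, evl, Finset.mul_sum]
  refine Finset.sum_congr rfl fun s _ => ?_
  have h1 : (P * B).submatrix id s = P * B.submatrix id s := by
    ext a b
    simp [Matrix.mul_apply]
  rw [h1, Matrix.det_mul]
  ring

/-- the form of a flag -/
def Mc (M : Matrix (Fin n) (Fin k) ℂ) : (Fin k → Fin n) → ℂ := fun s => ∏ b, M (s b) b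

lemma evl_Mc (M : Matrix (Fin n) (Fin k) ℂ) (B : Matrix (Fin k) (Fin n) ℂ) :
    evl (Mc M) B = (B * M).det := (det_mul_expand B M).symm

/-- change of coordinates -/
noncomputable def pull (A : Matrix (Fin n) (Fin n) ℂ) :
    ((Fin k → Fin n) → ℂ) →ₗ[ℂ] ((Fin k → Fin n) → ℂ) where
  toFun c := fun s' => ∑ s : Fin k → Fin n, c s * ∏ b, A (s' b) (s b)
  map_add' c c' := by
    ext s'
    simp only [Pi.add_apply, add_mul, Finset.sum_add_distrib]
  map_smul' r c := by
    ext s'
    simp only [Pi.smul_apply, smul_eq_mul, Finset.mul_sum, RingHom.id_apply, mul_assoc]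

lemma evl_pull (A : Matrix (Fin n) (Fin n) ℂ) (c : (Fin k → Fin n) → ℂ)
    (B : Matrix (Fin k) (Fin n) ℂ) : evl (pull A c) B = evl c (B * A) := by
  simp only [evl, pull, LinearMap.coe_mk, AddHom.coe_mk, Finset.sum_mul]
  rw [Finset.sum_comm]
  refine Finset.sum_congr rfl fun s _ => ?_
  have h1 : (B * A).submatrix id s = B * (A.submatrix id s) := by
    ext a b
    simp [Matrix.mul_apply]
  rw [h1, det_mul_expand, Finset.mul_sum]
  refine Finset.sum_congr rfl fun s' _ => ?_
  simp only [Matrix.submatrix_apply, id_eq]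
  ring

/-- the form of the flag of the Pascal matrix -/
noncomputable def cP (t : ℂ) : (Fin k → Fin n) → ℂ :=
  fun s => ∏ b : Fin k, ((s b : ℕ).choose (b : ℕ) : ℂ) * t ^ ((s b : ℕ) - (b : ℕ))

/-- the coefficients of `cP` -/
noncomputable def cQ (q : ℕ) : (Fin k → Fin n) → ℂ := fun s =>
  if ∑ b : Fin k, (s b : ℕ) = q + ∑ b : Fin k, (b : ℕ) then ∏ b : Fin k, ((s b : ℕ).choose (b : ℕ) : ℂ) else 0

/-- a product as a power -/
lemma prod_eq_ite {R : Type*} [CommRing R] (x : R) (s : Fin k → Fin n) :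
    ∏ b : Fin k, (((s b : ℕ).choose (b : ℕ) : ℕ) : R) * x ^ ((s b : ℕ) - (b : ℕ)) =
      ∑ q ∈ Finset.range (k * n + 1), x ^ q *
        (if ∑ b : Fin k, (s b : ℕ) = q + ∑ b : Fin k, (b : ℕ) then
          ∏ b : Fin k, (((s b : ℕ).choose (b : ℕ) : ℕ) : R) else 0) := by
  by_cases h : ∀ b : Fin k, (b : ℕ) ≤ (s b : ℕ)
  · have h1 : ∑ b, (s b : ℕ) = ∑ b : Fin k, ((s b : ℕ) - (b : ℕ)) + ∑ b : Fin k, (b : ℕ) := by
      rw [← Finset.sum_add_distrib]
      refine Finset.sum_congr rfl fun b _ => ?_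
      have := h b
      omega
    have h2 : ∑ b : Fin k, ((s b : ℕ) - (b : ℕ)) ∈ Finset.range (k * n + 1) := by
      rw [Finset.mem_range, Nat.lt_succ_iff]
      calc ∑ b : Fin k, ((s b : ℕ) - (b : ℕ)) ≤ ∑ _b : Fin k, n :=
            Finset.sum_le_sum fun b _ => by have := (s b).2; omega
        _ = k * n := by simp
    rw [Finset.sum_eq_single_of_mem _ h2, if_pos h1, Finset.prod_mul_distrib,
      Finset.prod_pow_eq_pow_sum, mul_comm]
    intro q _ hq
    rw [if_neg, mul_zero]
    rw [h1]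
    intro h3
    exact hq (Nat.add_right_cancel h3).symm
  · push Not at h
    obtain ⟨b, hb⟩ := h
    rw [Finset.prod_eq_zero (Finset.mem_univ b), Finset.sum_eq_zero]
    · intro q _
      rw [Finset.prod_eq_zero (Finset.mem_univ b)]
      · simp
      · rw [Nat.choose_eq_zero_of_lt hb, Nat.cast_zero]
    · rw [Nat.choose_eq_zero_of_lt hb, Nat.cast_zero, zero_mul]

lemma cP_eq (t : ℂ) : (cP t : (Fin k → Fin n) → ℂ) =
    ∑ q ∈ Finset.range (k * n + 1), t ^ q • (cQ q : (Fin k → Fin n) → ℂ) := by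
  ext s
  rw [Finset.sum_apply]
  exact prod_eq_ite t s

/-- the columns of the Pascal matrix -/
noncomputable def PM (k n : ℕ) : Matrix (Fin n) (Fin k) ℂ[X] := Matrix.of fun j b =>
  (((j : ℕ).choose (b : ℕ) : ℕ) : ℂ[X]) * X ^ ((j : ℕ) - (b : ℕ))

/-- the polynomial whose coefficients are the values of the `cQ q` -/
noncomputable def PhiP (B : Matrix (Fin k) (Fin n) ℂ) : ℂ[X] := ((B.map C) * PM k n).det

lemma coeff_PhiP (B : Matrix (Fin k) (Fin n) ℂ) (q : ℕ) : (PhiP B).coeff q = evl (cQ q) B := by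
  rw [PhiP, det_mul_expand]
  have h1 : ∀ s : Fin k → Fin n, ((B.map C).submatrix id s).det = C (B.submatrix id s).det := by
    intro s
    rw [RingHom.map_det]
    rfl
  simp only [PM, Matrix.of_apply, h1, prod_eq_ite, Finset.sum_mul]
  rw [Polynomial.finsetSum_coeff, evl]
  refine Finset.sum_congr rfl fun s _ => ?_
  rw [Polynomial.finsetSum_coeff]
  have h2 : ∀ q' : ℕ, (X ^ q' * (if ∑ b : Fin k, (s b : ℕ) = q' + ∑ b : Fin k, (b : ℕ) then
      ∏ b : Fin k, (((s b : ℕ).choose (b : ℕ) : ℕ) : ℂ[X]) else 0) * C (B.submatrix id s).det).coeff q =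
      if q = q' then cQ q s * (B.submatrix id s).det else 0 := by
    intro q'
    rw [Polynomial.coeff_mul_C]
    have h3 : (if ∑ b : Fin k, (s b : ℕ) = q' + ∑ b : Fin k, (b : ℕ) then
        ∏ b : Fin k, (((s b : ℕ).choose (b : ℕ) : ℕ) : ℂ[X]) else 0) = C (cQ q' s) := by
      rw [cQ]
      split_ifs
      · simp
      · simp
    rw [h3, Polynomial.coeff_mul_C, Polynomial.coeff_X_pow]
    by_cases h4 : q = q'
    · subst h4
      simp
    · rw [if_neg h4, if_neg h4]
      simp
  simp only [h2]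
  rw [Finset.sum_ite_eq]
  split_ifs with h5
  · rfl
  · symm
    rw [cQ, if_neg, zero_mul]
    intro h6
    apply h5
    rw [Finset.mem_range, Nat.lt_succ_iff]
    calc q ≤ ∑ b, (s b : ℕ) := by omega
      _ ≤ ∑ _b : Fin k, n := Finset.sum_le_sum fun b _ => (s b).2.le
      _ = k * n := by simp

end Pool.TP
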