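import Pool.Agent.TP.CxLA

/-! The order of vanishing for an echelon matrix. -/

namespace Pool.TP

open Module Polynomial

variable {k n : ℕ}

lemma det_choose_ne {Q : Fin k → ℕ} (hQ : Function.Injective Q) :
    (Matrix.of fun a b : Fin k => (((Q a).choose (b : ℕ) : ℕ) : ℂ)).det ≠ 0 := by
  have h1 := Matrix.det_eval_matrixOfPolynomials_eq_det_vandermonde (R := ℂ)
    (fun a : Fin k => ((Q a : ℕ) : ℂ)) (fun b : Fin k => descPochhammer ℂ (b : ℕ))
    (fun b => descPochhammer_natDegree ℂ (b : ℕ)) (fun b => monic_descPochhammer ℂ (b : ℕ))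
  have h2 : (Matrix.of fun a b : Fin k =>
      (descPochhammer ℂ (b : ℕ)).eval ((Q a : ℕ) : ℂ)) =
      Matrix.of fun a b : Fin k => (((b : ℕ).factorial : ℕ) : ℂ) *
        (Matrix.of fun a b : Fin k => (((Q a).choose (b : ℕ) : ℕ) : ℂ)) a b := by
    ext a b
    simp only [Matrix.of_apply]
    rw [descPochhammer_eval_eq_descFactorial, Nat.descFactorial_eq_factorial_mul_choose,
      Nat.cast_mul]
  rw [h2, Matrix.det_mul_row] at h1
  have h3 : (Matrix.vandermonde (fun a : Fin k => ((Q a : ℕ) : ℂ))).det ≠ 0 := by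
    rw [Matrix.det_vandermonde_ne_zero_iff]
    intro a b hab
    exact hQ (Nat.cast_injective hab)
  rw [h1] at h3
  exact right_ne_zero_of_mul h3

/-- the matrix with the powers of `X` taken out -/
noncomputable def WW (B : Matrix (Fin k) (Fin n) ℂ) (Q : Fin k → Fin n) :
    Matrix (Fin k) (Fin k) ℂ[X] := Matrix.of fun a b =>
  ∑ j : Fin n, if (Q a : ℕ) ≤ (j : ℕ) then
    C (B a j) * (((j : ℕ).choose (b : ℕ) : ℕ) : ℂ[X]) * X ^ ((j : ℕ) - (Q a : ℕ)) else 0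

lemma key_entry (B : Matrix (Fin k) (Fin n) ℂ) (Q : Fin k → Fin n)
    (h0 : ∀ a (j : Fin n), (j : ℕ) < (Q a : ℕ) → B a j = 0) (a b : Fin k) :
    X ^ (b : ℕ) * (B.map C * PM k n) a b = X ^ (Q a : ℕ) * WW B Q a b := by
  rw [Matrix.mul_apply, WW, Matrix.of_apply, Finset.mul_sum, Finset.mul_sum]
  refine Finset.sum_congr rfl fun j _ => ?_
  rw [Matrix.map_apply, PM, Matrix.of_apply]
  by_cases hj : (Q a : ℕ) ≤ (j : ℕ)
  · rw [if_pos hj]
    by_cases hb : (b : ℕ) ≤ (j : ℕ)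
    · have e1 : (X : ℂ[X]) ^ (b : ℕ) * X ^ ((j : ℕ) - (b : ℕ)) = X ^ (j : ℕ) := by
        rw [← pow_add]
        congr 1
        omega
      have e2 : (X : ℂ[X]) ^ (Q a : ℕ) * X ^ ((j : ℕ) - (Q a : ℕ)) = X ^ (j : ℕ) := by
        rw [← pow_add]
        congr 1
        omega
      calc (X : ℂ[X]) ^ (b : ℕ) * (C (B a j) * ((((j : ℕ).choose (b : ℕ) : ℕ) : ℂ[X]) *
            X ^ ((j : ℕ) - (b : ℕ))))
          = C (B a j) * (((j : ℕ).choose (b : ℕ) : ℕ) : ℂ[X]) *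
            ((X : ℂ[X]) ^ (b : ℕ) * X ^ ((j : ℕ) - (b : ℕ))) := by ring
        _ = C (B a j) * (((j : ℕ).choose (b : ℕ) : ℕ) : ℂ[X]) *
            ((X : ℂ[X]) ^ (Q a : ℕ) * X ^ ((j : ℕ) - (Q a : ℕ))) := by rw [e1, e2]
        _ = _ := by ring
    · rw [Nat.choose_eq_zero_of_lt (by omega)]
      simp
  · rw [if_neg hj, h0 a j (by omega)]
    simp

lemma key_det (B : Matrix (Fin k) (Fin n) ℂ) (Q : Fin k → Fin n)
    (h0 : ∀ a (j : Fin n), (j : ℕ) < (Q a : ℕ) → B a j = 0) :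
    X ^ (∑ b : Fin k, (b : ℕ)) * PhiP B = X ^ (∑ a, (Q a : ℕ)) * (WW B Q).det := by
  rw [PhiP, ← Finset.prod_pow_eq_pow_sum, ← Finset.prod_pow_eq_pow_sum, ← Matrix.det_mul_row,
    ← Matrix.det_mul_column]
  congr 1
  ext1 a b
  exact key_entry B Q h0 a b

lemma coeff_zero_WW (B : Matrix (Fin k) (Fin n) ℂ) (Q : Fin k → Fin n) :
    (WW B Q).det.coeff 0 = (∏ a, B a (Q a)) *
      (Matrix.of fun a b : Fin k => ((((Q a : ℕ)).choose (b : ℕ) : ℕ) : ℂ)).det := by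
  rw [Polynomial.coeff_zero_eq_eval_zero]
  have h1 : (WW B Q).det.eval 0 = ((Polynomial.evalRingHom (0 : ℂ)).mapMatrix (WW B Q)).det := by
    rw [← RingHom.map_det]
    rfl
  rw [h1, ← Matrix.det_mul_column]
  congr 1
  ext a b
  simp only [RingHom.mapMatrix_apply, Matrix.map_apply, WW, Matrix.of_apply, map_sum]
  rw [Finset.sum_eq_single_of_mem (Q a) (Finset.mem_univ _)]
  · simp
  · intro j _ hj
    split_ifs with h2
    · have h3 : (j : ℕ) - (Q a : ℕ) ≠ 0 := by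
        intro h4
        apply hj
        ext
        omega
      simp [h3]
    · simp

theorem ech {B : Matrix (Fin k) (Fin n) ℂ} {Q : Fin k → Fin n} (hQ : Function.Injective Q)
    (h0 : ∀ a (j : Fin n), (j : ℕ) < (Q a : ℕ) → B a j = 0) (h1 : ∀ a, B a (Q a) ≠ 0) :
    (∀ q, q + ∑ b : Fin k, (b : ℕ) < ∑ a, (Q a : ℕ) → evl (cQ q) B = 0) ∧
    (∀ q, q + ∑ b : Fin k, (b : ℕ) = ∑ a, (Q a : ℕ) → evl (cQ q) B ≠ 0) ∧
    ∑ b : Fin k, (b : ℕ) ≤ ∑ a, (Q a : ℕ) := by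
  have hk := key_det B Q h0
  have hc : (WW B Q).det.coeff 0 ≠ 0 := by
    rw [coeff_zero_WW]
    refine mul_ne_zero (Finset.prod_ne_zero_iff.2 fun a _ => h1 a) ?_
    exact det_choose_ne (Q := fun a => (Q a : ℕ)) (fun a b hab => hQ (Fin.ext hab))
  have h2 : ∀ q, (PhiP B).coeff q = if ∑ a, (Q a : ℕ) ≤ q + ∑ b : Fin k, (b : ℕ) then
      (WW B Q).det.coeff (q + ∑ b : Fin k, (b : ℕ) - ∑ a, (Q a : ℕ)) else 0 := by
    intro q
    rw [← Polynomial.coeff_X_pow_mul', ← hk, Polynomial.coeff_X_pow_mul]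
  refine ⟨?_, ?_, ?_⟩
  · intro q hq
    rw [← coeff_PhiP, h2, if_neg (by omega)]
  · intro q hq
    rw [← coeff_PhiP, h2, if_pos hq.ge, hq, Nat.sub_self]
    exact hc
  · by_contra hlt
    have h3 := congrArg (fun p : ℂ[X] => p.coeff (∑ a, (Q a : ℕ))) hk
    simp only [Polynomial.coeff_X_pow_mul'] at h3
    rw [if_neg (by omega), if_pos le_rfl, Nat.sub_self] at h3
    exact hc h3.symm

end Pool.TP
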