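import Mathlib

/-!
Definitions for Theorem T (positivity and transversality), problem MP_0b2914_ag.
All matrices are `n × n` with index type `Fin n`.
The flag `g·F_0` of an invertible matrix `g`: its `r`-dimensional member is the span of the LAST `r` columns.
-/

set_option autoImplicit false

open Matrix

namespace Pool.TP

variable {R : Type*} [CommRing R]

/-- Upper unipotent matrices. -/
def UU {n : ℕ} (u : Matrix (Fin n) (Fin n) R) : Prop :=
  (∀ i, u i i = 1) ∧ ∀ i j, j < i → u i j = 0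

/-- Lower triangular matrices with nonzero diagonal entries. -/
def LL {n : ℕ} (l : Matrix (Fin n) (Fin n) R) : Prop :=
  (∀ i j, i < j → l i j = 0) ∧ ∀ i, l i i ≠ 0

/-- Strictly lower triangular matrices. -/
def SL {n : ℕ} (x : Matrix (Fin n) (Fin n) R) : Prop :=
  ∀ i j, i ≤ j → x i j = 0

/-- Corner nondegeneracy: all top right corner minors are nonzero, in geometric form.
The flags `F_0` and `g·F_0` are transverse. -/
def CN {n : ℕ} (g : Matrix (Fin n) (Fin n) R) : Prop :=
  ∀ r : ℕ, r ≤ n → ∀ v : Fin n → R, (∀ j : Fin n, (j : ℕ) < n - r → v j = 0) →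
    (∀ i : Fin n, (i : ℕ) < r → (g *ᵥ v) i = 0) → v = 0

/-- The bidiagonal matrix with ones on the diagonal and `b i` at `(i, i+1)`. -/
def Bd {n : ℕ} (b : Fin n → R) : Matrix (Fin (n + 1)) (Fin (n + 1)) R :=
  Matrix.of fun i j => if i = j then 1 else
    if h : (i : ℕ) + 1 = (j : ℕ) then b ⟨i, by have := j.2; omega⟩ else 0

/-- The block matrix `1 ⊕ u`. -/
def Ex1 {n : ℕ} (u : Matrix (Fin n) (Fin n) R) : Matrix (Fin (n + 1)) (Fin (n + 1)) R :=
  Matrix.of fun i j => Fin.cases (Fin.cases 1 (fun _ => 0) j)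
    (fun i' => Fin.cases 0 (fun j' => u i' j') j) i

/-- Totally positive upper unipotent matrices, recursively:
`u = B(b) (1 ⊕ u')` with all `b i > 0` and `u'` of the same kind. -/
def Pos : (n : ℕ) → Matrix (Fin n) (Fin n) ℝ → Prop
  | 0, _ => True
  | (n + 1), u => ∃ (b : Fin n → ℝ) (u' : Matrix (Fin n) (Fin n) ℝ),
      (∀ i, 0 < b i) ∧ Pos n u' ∧ u = Bd b * Ex1 u'

/-- Pascal matrices `P(t)_{ij} = C(j,i) t^(j-i)`. -/
def Pas (n : ℕ) (t : R) : Matrix (Fin n) (Fin n) R :=
  Matrix.of fun i j => ((j : ℕ).choose (i : ℕ) : R) * t ^ ((j : ℕ) - (i : ℕ))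

/-- Matrix of a cosecant flag in coordinates of `Pol_{<n}`: column `c` is the coefficient vector
of `∏_{a<c} (x - s a)`.  The span of the last `r` columns is `{ p : p(s_0) = .. = p(s_(n-r-1)) = 0 }`. -/
noncomputable def Cos (n : ℕ) (s : ℕ → R) : Matrix (Fin n) (Fin n) R :=
  Matrix.of fun i j =>
    (∏ a ∈ Finset.range (j : ℕ), (Polynomial.X - Polynomial.C (s a))).coeff (i : ℕ)

end Pool.TP
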