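import Pool.Agent.TP.Trans
import Pool.Agent.TP.Defs

/-!
Theorem T for real subspaces of `ℂ^n` and complexified real flags, problem MP_0b2914_ag.
-/

namespace Pool.TP

open Module Pool.CSC Matrix

noncomputable section

/-- complexification of a real matrix -/
abbrev cm {n : ℕ} (g : Matrix (Fin n) (Fin n) ℝ) : Matrix (Fin n) (Fin n) ℂ :=
  g.map (algebraMap ℝ ℂ)

/-- the standard flag: vectors whose coordinates of index `< n - r` vanish -/
def Fl0 (n r : ℕ) : Submodule ℂ (Vec n) where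
  carrier := {v | ∀ i : Fin n, (i : ℕ) < n - r → v i = 0}
  add_mem' := by
    intro v w hv hw i hi
    rw [Pi.add_apply, hv i hi, hw i hi, add_zero]
  zero_mem' := fun _ _ => rfl
  smul_mem' := by
    intro c v hv i hi
    rw [Pi.smul_apply, hv i hi, smul_zero]

lemma mem_Fl0 {n r : ℕ} {v : Vec n} :
    v ∈ Fl0 n r ↔ ∀ i : Fin n, (i : ℕ) < n - r → v i = 0 := Iff.rfl

/-- the flag of a real matrix: the span of the last `r` columns -/
def flg {n : ℕ} (g : Matrix (Fin n) (Fin n) ℝ) (r : ℕ) : Submodule ℂ (Vec n) :=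
  (Fl0 n r).map (Matrix.mulVecLin (cm g))

lemma mem_flg {n : ℕ} {g : Matrix (Fin n) (Fin n) ℝ} {r : ℕ} {v : Vec n} :
    v ∈ flg g r ↔ ∃ w ∈ Fl0 n r, cm g *ᵥ w = v := by
  rw [flg, Submodule.mem_map]
  rfl

lemma finrank_Fl0 {n r : ℕ} (hr : r ≤ n) : finrank ℂ (Fl0 n r) = r := by
  let f : Vec n →ₗ[ℂ] (Fin (n - r) → ℂ) :=
    LinearMap.funLeft ℂ ℂ (Fin.castLE (Nat.sub_le n r))
  have hf : Function.Surjective f :=
    LinearMap.funLeft_surjective_of_injective ℂ ℂ _ (Fin.castLE_injective _)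
  have hker : LinearMap.ker f = Fl0 n r := by
    ext v
    rw [LinearMap.mem_ker, mem_Fl0]
    constructor
    · intro h i hi
      have h1 := congrFun h ⟨i, hi⟩
      simpa [f, LinearMap.funLeft_apply] using h1
    · intro h
      funext i
      have := h (Fin.castLE (Nat.sub_le n r) i) i.2
      simpa [f, LinearMap.funLeft_apply] using this
  have h1 := LinearMap.finrank_range_add_finrank_ker f
  rw [LinearMap.range_eq_top.2 hf, finrank_top, hker, finrank_V, Module.finrank_fin_fun] at h1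
  omega

lemma Fl0_mono {n r s : ℕ} (h : r ≤ s) : Fl0 n r ≤ Fl0 n s := by
  intro v hv i hi
  exact hv i (by omega)

lemma UU.det {n : ℕ} {R : Type*} [CommRing R] {g : Matrix (Fin n) (Fin n) R} (hg : UU g) :
    g.det = 1 := by
  rw [Matrix.det_of_isUpperTriangular (fun i j h => hg.2 i j h)]
  exact Finset.prod_eq_one fun i _ => hg.1 i

lemma cm_det {n : ℕ} {g : Matrix (Fin n) (Fin n) ℝ} (hg : g.det ≠ 0) : (cm g).det ≠ 0 := by
  have h1 : (cm g).det = algebraMap ℝ ℂ g.det := (RingHom.map_det (algebraMap ℝ ℂ) g).symm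
  rw [h1]
  simpa using hg

lemma cm_inj {n : ℕ} {g h : Matrix (Fin n) (Fin n) ℝ} (hgh : cm g = cm h) : g = h := by
  ext i j
  have := congrFun (congrFun hgh i) j
  simpa using this

lemma cm_mul {n : ℕ} (g h : Matrix (Fin n) (Fin n) ℝ) : cm (g * h) = cm g * cm h := by
  rw [cm, Matrix.map_mul]

lemma cm_mulVec_inj {n : ℕ} {g : Matrix (Fin n) (Fin n) ℝ} (hg : g.det ≠ 0) :
    Function.Injective (fun v : Vec n => cm g *ᵥ v) := by
  intro v w h
  have h1 : (cm g)⁻¹ *ᵥ (cm g *ᵥ v) = (cm g)⁻¹ *ᵥ (cm g *ᵥ w) := by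
    simp only at h
    rw [h]
  rwa [Matrix.mulVec_mulVec, Matrix.mulVec_mulVec,
    Matrix.nonsing_inv_mul _ (isUnit_iff_ne_zero.2 (cm_det hg)), Matrix.one_mulVec,
    Matrix.one_mulVec] at h1

lemma isFlag_flg {n : ℕ} {g : Matrix (Fin n) (Fin n) ℝ} (hg : g.det ≠ 0) :
    IsFlag n (flg g) := by
  refine ⟨fun i j hij _ => Submodule.map_mono (Fl0_mono hij), fun j hj => ?_⟩
  have h1 := (Submodule.equivMapOfInjective (Matrix.mulVecLin (cm g)) (cm_mulVec_inj hg)
    (Fl0 n j)).finrank_eq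
  rw [finrank_Fl0 hj] at h1
  exact h1.symm

/-- complex conjugation of vectors -/
def cj {n : ℕ} (v : Vec n) : Vec n := fun i => (starRingEnd ℂ) (v i)

@[simp] lemma cj_cj {n : ℕ} (v : Vec n) : cj (cj v) = v := by
  funext i
  simp [cj]

lemma cj_mem {n : ℕ} {H : Submodule ℂ (Vec n)} (hH : IsReal n H) {v : Vec n} (hv : v ∈ H) :
    cj v ∈ H := hH v hv

lemma isReal_flg {n : ℕ} (g : Matrix (Fin n) (Fin n) ℝ) (r : ℕ) : IsReal n (flg g r) := by
  intro v hv
  obtain ⟨w, hw, rfl⟩ := mem_flg.1 hv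
  refine mem_flg.2 ⟨cj w, fun i hi => ?_, ?_⟩
  · simp [cj, hw i hi]
  · funext i
    simp [cj, Matrix.mulVec, dotProduct, map_sum]

/-- real part of a matrix -/
def rp {n : ℕ} (X : Matrix (Fin n) (Fin n) ℂ) : Matrix (Fin n) (Fin n) ℝ := X.map Complex.re

/-- imaginary part of a matrix -/
def ip {n : ℕ} (X : Matrix (Fin n) (Fin n) ℂ) : Matrix (Fin n) (Fin n) ℝ := X.map Complex.im

lemma cm_rp_mulVec {n : ℕ} (X : Matrix (Fin n) (Fin n) ℂ) (v : Vec n) :
    cm (rp X) *ᵥ v = (1 / 2 : ℂ) • (X *ᵥ v + cj (X *ᵥ cj v)) := by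
  funext i
  simp only [Matrix.mulVec, dotProduct, cj, Pi.smul_apply, Pi.add_apply, smul_eq_mul, map_sum,
    map_mul, Complex.conj_conj, rp, cm, Matrix.map_apply]
  rw [← Finset.sum_add_distrib, Finset.mul_sum]
  refine Finset.sum_congr rfl fun j _ => ?_
  have h1 : (algebraMap ℝ ℂ) (X i j).re = (1 / 2 : ℂ) * (X i j + (starRingEnd ℂ) (X i j)) := by
    rw [Complex.add_conj]
    push_cast
    simp
  rw [h1]
  ring

lemma cm_ip_mulVec {n : ℕ} (X : Matrix (Fin n) (Fin n) ℂ) (v : Vec n) :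
    cm (ip X) *ᵥ v = (-Complex.I / 2 : ℂ) • (X *ᵥ v - cj (X *ᵥ cj v)) := by
  funext i
  simp only [Matrix.mulVec, dotProduct, cj, Pi.smul_apply, Pi.sub_apply, smul_eq_mul, map_sum,
    map_mul, Complex.conj_conj, ip, cm, Matrix.map_apply]
  rw [← Finset.sum_sub_distrib, Finset.mul_sum]
  refine Finset.sum_congr rfl fun j _ => ?_
  have h1 : (algebraMap ℝ ℂ) (X i j).im =
      (-Complex.I / 2 : ℂ) * (X i j - (starRingEnd ℂ) (X i j)) := by
    rw [Complex.sub_conj]
    push_cast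
    ring_nf
    simp
  rw [h1]
  ring

/-- a real matrix whose complexification is in the conormal space -/
lemma con_mul {n : ℕ} {H : Submodule ℂ (Vec n)} {F F' : ℕ → Submodule ℂ (Vec n)}
    {X Y : Matrix (Fin n) (Fin n) ℝ} (hX : Matrix.mulVecLin (cm X) ∈ con H F)
    (hY : Matrix.mulVecLin (cm Y) ∈ con H F') : X * Y = 0 := by
  apply cm_inj
  rw [cm_mul]
  apply Matrix.toLin'.injective
  apply LinearMap.ext
  intro v
  rw [Matrix.toLin'_mul]
  have h1 := hY.1.1 v
  have h2 := hX.1.2 _ h1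
  simpa using h2

lemma SL_of_con {n : ℕ} {H : Submodule ℂ (Vec n)} {g : Matrix (Fin n) (Fin n) ℝ}
    (hg : g.det ≠ 0) {X : Matrix (Fin n) (Fin n) ℝ}
    (hX : Matrix.mulVecLin (cm X) ∈ con H (flg g)) : SL (g⁻¹ * X * g) := by
  intro i c hic
  have h1 : (Pi.single c 1 : Vec n) ∈ Fl0 n (n - c) := by
    intro a ha
    have : a ≠ c := by
      rintro rfl
      have := a.2
      omega
    rw [Pi.single_apply, if_neg this]
  have hc := c.2
  have h2 := hX.2 (n - c - 1) (by omega) (cm g *ᵥ Pi.single c 1)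
    (mem_flg.2 ⟨_, by rwa [show n - (c : ℕ) - 1 + 1 = n - c by omega], rfl⟩)
  obtain ⟨w, hw, hw'⟩ := mem_flg.1 h2
  have h3 : cm (g⁻¹ * X * g) *ᵥ (Pi.single c 1 : Vec n) = w := by
    apply cm_mulVec_inj hg
    simp only
    rw [Matrix.mulVec_mulVec, ← cm_mul, ← Matrix.mul_assoc, ← Matrix.mul_assoc,
      Matrix.mul_nonsing_inv _ (isUnit_iff_ne_zero.2 hg), Matrix.one_mul, hw', cm_mul,
      Matrix.mulVecLin_apply, Matrix.mulVec_mulVec]
  have h4 := hw i (by omega)
  rw [← h3, Matrix.mulVec_single_one, Matrix.col_apply] at h4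
  simpa [cm, Matrix.map_apply] using h4

/-- independence of conormal spaces from Theorem T for real matrices -/
theorem indep_of_real {n m : ℕ} {g : Fin m → Matrix (Fin n) (Fin n) ℝ}
    (hdet : ∀ i, (g i).det ≠ 0)
    (hT : ∀ x : Fin m → Matrix (Fin n) (Fin n) ℝ, (∀ i j, x i * x j = 0) →
      (∀ i, SL ((g i)⁻¹ * x i * g i)) → ∑ i, x i = 0 → ∀ i, x i = 0)
    {H : Submodule ℂ (Vec n)} (hH : IsReal n H)
    (x : Fin m → Module.End ℂ (Vec n)) (hx : ∀ l, x l ∈ con H (flg (g l)))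
    (hsum : ∑ l, x l = 0) : ∀ l, x l = 0 := by
  -- the matrices
  set X : Fin m → Matrix (Fin n) (Fin n) ℂ := fun l => LinearMap.toMatrix' (x l) with hXdef
  have hXv : ∀ l v, X l *ᵥ v = x l v := fun l v => LinearMap.toMatrix'_mulVec _ _
  -- the conjugate
  have hconj : ∀ l, ∃ y ∈ con H (flg (g l)), ∀ v, y v = cj (x l (cj v)) := by
    intro l
    have h0 : ∀ v, Matrix.mulVecLin ((X l).map (starRingEnd ℂ)) v = cj (x l (cj v)) := by
      intro v
      rw [← hXv]
      funext i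
      simp [cj, Matrix.mulVec, dotProduct, map_sum]
    refine ⟨Matrix.mulVecLin ((X l).map (starRingEnd ℂ)), ⟨⟨fun v => ?_, fun v hv => ?_⟩,
      fun j hj v hv => ?_⟩, h0⟩
    · rw [h0]
      exact cj_mem hH ((hx l).1.1 _)
    · rw [h0, (hx l).1.2 _ (cj_mem hH hv)]
      funext i
      simp [cj]
    · rw [h0]
      exact cj_mem (isReal_flg _ _) ((hx l).2 j hj _ (cj_mem (isReal_flg _ _) hv))
  have hrp : ∀ l, Matrix.mulVecLin (cm (rp (X l))) ∈ con H (flg (g l)) := by
    intro l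
    obtain ⟨y, hy, hy'⟩ := hconj l
    have : Matrix.mulVecLin (cm (rp (X l))) = (1 / 2 : ℂ) • (x l + y) := by
      apply LinearMap.ext
      intro v
      rw [Matrix.mulVecLin_apply, cm_rp_mulVec, hXv, hXv, LinearMap.smul_apply,
        LinearMap.add_apply, hy']
    rw [this]
    exact (con H (flg (g l))).smul_mem _ ((con H (flg (g l))).add_mem (hx l) hy)
  have hip : ∀ l, Matrix.mulVecLin (cm (ip (X l))) ∈ con H (flg (g l)) := by
    intro l
    obtain ⟨y, hy, hy'⟩ := hconj l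
    have : Matrix.mulVecLin (cm (ip (X l))) = (-Complex.I / 2 : ℂ) • (x l - y) := by
      apply LinearMap.ext
      intro v
      rw [Matrix.mulVecLin_apply, cm_ip_mulVec, hXv, hXv, LinearMap.smul_apply,
        LinearMap.sub_apply, hy']
    rw [this]
    exact (con H (flg (g l))).smul_mem _ ((con H (flg (g l))).sub_mem (hx l) hy)
  have hXsum : ∑ l, X l = 0 := by
    rw [hXdef, ← map_sum, hsum, map_zero]
  have h1 := hT (fun l => rp (X l)) (fun i j => con_mul (hrp i) (hrp j))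
    (fun i => SL_of_con (hdet i) (hrp i)) (by
      ext i j
      have := congrArg Complex.re (congrFun (congrFun hXsum i) j)
      simpa [rp, Matrix.sum_apply] using this)
  have h2 := hT (fun l => ip (X l)) (fun i j => con_mul (hip i) (hip j))
    (fun i => SL_of_con (hdet i) (hip i)) (by
      ext i j
      have := congrArg Complex.im (congrFun (congrFun hXsum i) j)
      simpa [ip, Matrix.sum_apply] using this)
  intro l
  have h3 : X l = 0 := by
    ext i j
    apply Complex.ext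
    · have := congrFun (congrFun (h1 l) i) j
      simpa only [rp, Matrix.map_apply, Matrix.zero_apply, Complex.zero_re] using this
    · have := congrFun (congrFun (h2 l) i) j
      simpa only [ip, Matrix.map_apply, Matrix.zero_apply, Complex.zero_im] using this
  apply LinearMap.toMatrix'.injective
  rw [map_zero]
  exact h3

end

end Pool.TP
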