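import Pool.Agent.TP.FinalA
import Pool.Agent.TPC.Transport
import Pool.Agent.CTG.Fin

/-!
The cosecant conjecture from the reality theorem for positive lists of flags.
Problem MP_0b2914_ag.
-/

namespace Pool.TP

open Module Pool.CSC Matrix

noncomputable section

lemma sidx_le {k n : ℕ} (hkn : k ≤ n) (lam : Fin k → ℕ) (i : Fin k) : sidx k n lam i ≤ n := by
  have h1 := i.2
  unfold sidx
  omega

lemma schub_congr {k n : ℕ} (hkn : k ≤ n) (lam : Fin k → ℕ) {F G : ℕ → Submodule ℂ (Vec n)}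
    (h : ∀ j ≤ n, F j = G j) : schub k n lam F = schub k n lam G := by
  ext H
  simp only [schub, Set.mem_ofPred_eq]
  refine and_congr Iff.rfl (forall_congr' fun i => ?_)
  rw [h _ (sidx_le hkn lam i)]

lemma tangentTo_congr {k n : ℕ} (hkn : k ≤ n) (lam : Fin k → ℕ)
    {F G : ℕ → Submodule ℂ (Vec n)} (h : ∀ j ≤ n, F j = G j) (H : Submodule ℂ (Vec n))
    (φ : ↥H →ₗ[ℂ] (Fin n → ℂ) ⧸ H) : TangentTo k n lam F H φ ↔ TangentTo k n lam G H φ := by
  refine forall_congr' fun i => ?_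
  rw [h _ (sidx_le hkn lam i)]

/-- reality and transversality for cosecant flags -/
theorem good_cosecant {k n m : ℕ} (hk : 1 ≤ k) (hkn : k < n) (hreal : RealThm k n)
    {lam : Fin m → Fin k → ℕ} (hlam : IsProblem k n m lam) {I : Fin m → Set ℝ}
    {F : Fin m → ℕ → Submodule ℂ (Fin n → ℂ)} (hI : ∀ l, (I l).OrdConnected)
    (hd : Pairwise fun l l' => Disjoint (I l) (I l')) (hF : ∀ l, Cosecant n (I l) (F l))
    {H : Submodule ℂ (Fin n → ℂ)} (hH : H ∈ ⋂ l, schub k n (lam l) (F l)) :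
    IsReal n H ∧ ∀ φ : ↥H →ₗ[ℂ] (Fin n → ℂ) ⧸ H,
      (∀ l, TangentTo k n (lam l) (F l) H φ) → φ = 0 := by
  have hn : 2 ≤ n := by omega
  choose s hs1 hs2 using fun l => TPC.cosecant_flg hn (hF l)
  rw [Set.mem_iInter] at hH
  have hsep : ∀ l l', l ≠ l' → (∀ a b, a + 1 < n → b + 1 < n → s l a < s l' b) ∨
      ∀ a b, a + 1 < n → b + 1 < n → s l' a < s l b := by
    intro l l' hne
    rcases le_total (s l 0) (s l' 0) with h | h
    · left
      intro a b ha hb
      exact TPC.lt_of_disj (hI l') (hI l) (hd hne.symm) (hs1 l' 0 (by omega)) (hs1 l' b hb)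
        (hs1 l 0 (by omega)) (hs1 l a ha) h
    · right
      intro a b ha hb
      exact TPC.lt_of_disj (hI l) (hI l') (hd hne) (hs1 l 0 (by omega)) (hs1 l b hb)
        (hs1 l' 0 (by omega)) (hs1 l' a ha) h
  have hH' : ∀ l, TPC.mp (TPC.Phi n) H ∈ schub k n (lam l) (flg (TPT.gN n (s l))) := by
    intro l
    rw [← schub_congr hkn.le (lam l) (hs2 l)]
    exact (TPC.schub_mp (TPC.Phi n)).2 (hH l)
  obtain ⟨h1, h2⟩ := good_newton hk hkn hreal hlam s hsep hH'
  refine ⟨(TPC.isReal_mp (TPC.realEq_Phi n)).1 h1, fun φ hφ => ?_⟩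
  refine TPC.trans_mp (TPC.Phi n) (fun ψ hψ => h2 ψ fun l => ?_) φ hφ
  exact (tangentTo_congr hkn.le (lam l) (hs2 l) _ ψ).1 (hψ l)

/-- the cosecant conjecture, given the reality theorem -/
theorem main_of_real {k n m : ℕ} (hk : 1 ≤ k) (hkn : k < n) (hreal : RealThm k n)
    {lam : Fin m → Fin k → ℕ} (hlam : IsProblem k n m lam) :
    ∃ d, (∀ d', IsGenericNumber k n m lam d' ↔ d' = d) ∧
      ∀ (I : Fin m → Set ℝ) (F : Fin m → ℕ → Submodule ℂ (Fin n → ℂ)),
        (∀ l, (I l).OrdConnected) → Pairwise (fun l l' => Disjoint (I l) (I l')) →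
        (∀ l, Cosecant n (I l) (F l)) →
        (⋂ l, schub k n (lam l) (F l)).encard = d ∧
          ∀ H ∈ ⋂ l, schub k n (lam l) (F l), IsReal n H ∧
            ∀ φ : ↥H →ₗ[ℂ] (Fin n → ℂ) ⧸ H,
              (∀ l, TangentTo k n (lam l) (F l) H φ) → φ = 0 := by
  have hnum : ∀ (I : Fin m → Set ℝ) (F : Fin m → ℕ → Submodule ℂ (Fin n → ℂ)),
      (∀ l, (I l).OrdConnected) → Pairwise (fun l l' => Disjoint (I l) (I l')) →
      (∀ l, Cosecant n (I l) (F l)) →
      ∃ d, IsGenericNumber k n m lam d ∧ (⋂ l, schub k n (lam l) (F l)).encard = d := by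
    intro I F hI hd hF
    exact CTG.generic_of_transverse hkn.le hlam (fun l => isFlag_cosecant (by omega) (hF l))
      fun H hH => (good_cosecant hk hkn hreal hlam hI hd hF hH).2
  obtain ⟨I₀, F₀, hI₀, hd₀, hF₀⟩ := TPC.exists_cosecant (by omega : 2 ≤ n) m
  obtain ⟨d, hd1, -⟩ := hnum I₀ F₀ hI₀ hd₀ hF₀
  refine ⟨d, fun d' => ⟨fun h => generic_unique h hd1, ?_⟩, fun I F hI hd hF => ⟨?_, ?_⟩⟩
  · rintro rfl
    exact hd1
  · obtain ⟨d', h1, h2⟩ := hnum I F hI hd hF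
    rw [h2, generic_unique h1 hd1]
  · intro H hH
    exact good_cosecant hk hkn hreal hlam hI hd hF hH

end

end Pool.TP
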