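import Pool.Agent.TP.Gtt
import Pool.Agent.TPT.Newton

/-!
Newton flags of separated sets of nodes: reality and transversality from the theorem for positive
lists of flags. Problem MP_0b2914_ag.
-/

namespace Pool.TP

open Module Pool.CSC Matrix

noncomputable section

/-- reality of all points for positive lists of flags with nonempty partitions, as a statement -/
def RealThm (k n : ℕ) : Prop :=
  ∀ (M : ℕ) (u : Fin (M + 1) → Matrix (Fin n) (Fin n) ℝ), (∀ i, TPT.Uni (u i)) →
    (∀ i j, i < j → TPT.Pos n ((u i)⁻¹ * u j)) →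
    ∀ lam : Fin (M + 1) → Fin k → ℕ, IsProblem k n (M + 1) lam → (∀ i, 1 ≤ ∑ a, lam i a) →
      ∀ H, (∀ i, H ∈ schub k n (lam i) (flg (u i))) → IsReal n H

/-- a finite set of indices sorted by decreasing real keys -/
lemma exists_sort {m : ℕ} (S : Finset (Fin m)) (key : Fin m → ℝ) (hkey : Function.Injective key) :
    ∃ e : Fin S.card → Fin m, Function.Injective e ∧ (∀ l, l ∈ S ↔ ∃ i, e i = l) ∧
      ∀ i j, i < j → key (e j) < key (e i) := by
  classical
  have hc : (S.image key).card = S.card := Finset.card_image_of_injective S hkey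
  have hex : ∀ i : Fin S.card, ∃ l ∈ S, key l = (S.image key).orderEmbOfFin hc i.rev := by
    intro i
    have h1 := (S.image key).orderEmbOfFin_mem hc i.rev
    rw [Finset.mem_image] at h1
    exact h1
  choose e he1 he2 using hex
  have hlt : ∀ i j, i < j → key (e j) < key (e i) := by
    intro i j hij
    rw [he2, he2]
    exact ((S.image key).orderEmbOfFin hc).strictMono (Fin.rev_lt_rev.2 hij)
  refine ⟨e, fun i j hij => ?_, fun l => ⟨fun hl => ?_, ?_⟩, hlt⟩
  · rcases lt_trichotomy i j with h | h | h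
    · exact absurd (hlt i j h) (by rw [hij]; exact lt_irrefl _)
    · exact h
    · exact absurd (hlt j i h) (by rw [hij]; exact lt_irrefl _)
  · have h1 : key l ∈ Set.range ((S.image key).orderEmbOfFin hc) := by
      rw [Finset.range_orderEmbOfFin]
      exact Finset.mem_coe.2 (Finset.mem_image_of_mem key hl)
    obtain ⟨i, hi⟩ := h1
    refine ⟨i.rev, hkey ?_⟩
    rw [he2, Fin.rev_rev, hi]
  · rintro ⟨i, rfl⟩
    exact he1 i

/-- Newton flags with separated nodes -/
theorem good_newton {k n m : ℕ} (hk : 1 ≤ k) (hkn : k < n) (hreal : RealThm k n)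
    {lam : Fin m → Fin k → ℕ} (hlam : IsProblem k n m lam) (s : Fin m → ℕ → ℝ)
    (hs : ∀ l l', l ≠ l' → (∀ a b, a + 1 < n → b + 1 < n → s l a < s l' b) ∨
      ∀ a b, a + 1 < n → b + 1 < n → s l' a < s l b)
    {H : Submodule ℂ (Vec n)} (hH : ∀ l, H ∈ schub k n (lam l) (flg (TPT.gN n (s l)))) :
    IsReal n H ∧ ∀ φ : ↥H →ₗ[ℂ] (Fin n → ℂ) ⧸ H,
      (∀ l, TangentTo k n (lam l) (flg (TPT.gN n (s l))) H φ) → φ = 0 := by
  classical
  set S : Finset (Fin m) := Finset.univ.filter fun l => 1 ≤ ∑ a, lam l a with hS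
  have hkey : Function.Injective fun l => s l 0 := by
    intro l l' h
    by_contra hne
    simp only at h
    rcases hs l l' hne with h1 | h1
    · exact absurd (h1 0 0 (by omega) (by omega)) (by rw [h]; exact lt_irrefl _)
    · exact absurd (h1 0 0 (by omega) (by omega)) (by rw [h]; exact lt_irrefl _)
  obtain ⟨e, he, hmem, hlt⟩ := exists_sort S (fun l => s l 0) hkey
  -- the sum over the sublist
  have hsum : ∑ i, ∑ a, lam (e i) a = k * (n - k) := by
    rw [← hlam.sum]
    have h1 : ∑ l ∈ S, ∑ a, lam l a = ∑ l, ∑ a, lam l a := by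
      refine Finset.sum_subset (Finset.subset_univ S) fun l _ hl => ?_
      by_contra hne
      exact hl (Finset.mem_filter.2 ⟨Finset.mem_univ l, Nat.one_le_iff_ne_zero.2 hne⟩)
    rw [← h1]
    have h2 : S = Finset.univ.image e := by
      ext l
      rw [hmem l, Finset.mem_image]
      simp
    have h3 : ∑ l ∈ Finset.univ.image e, ∑ a, lam l a = ∑ i, ∑ a, lam (e i) a :=
      Finset.sum_image fun i _ j _ h => he h
    rw [← h3]
    exact Finset.sum_congr h2.symm fun _ _ => rfl
  have hpos : 0 < k * (n - k) := Nat.mul_pos hk (by omega)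
  have hc : S.card ≠ 0 := by
    intro h0
    have : ∑ i : Fin S.card, ∑ a, lam (e i) a = 0 := by
      have : IsEmpty (Fin S.card) := by
        rw [h0]
        exact Fin.isEmpty
      exact Finset.sum_of_isEmpty _
    omega
  obtain ⟨M, hM⟩ : ∃ M, S.card = M + 1 := ⟨S.card - 1, by omega⟩
  let e' : Fin (M + 1) → Fin m := fun i => e (Fin.cast hM.symm i)
  have hprob : IsProblem k n (M + 1) (fun i => lam (e' i)) := by
    refine ⟨fun i => hlam.anti _, fun i => hlam.le _, ?_⟩
    rw [← hsum]
    exact (Fin.castOrderIso hM.symm).toEquiv.sum_comp (fun i => ∑ a, lam (e i) a)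
  have hlt' : ∀ i j : Fin (M + 1), i < j →
      TPT.Pos n ((TPT.gN n (s (e' i)))⁻¹ * TPT.gN n (s (e' j))) := by
    intro i j hij
    have h1 : s (e' j) 0 < s (e' i) 0 := hlt _ _ (by simpa using hij)
    have hne : e' i ≠ e' j := by
      intro h
      rw [h] at h1
      exact lt_irrefl _ h1
    refine TPT.pos_gN_inv n _ _ fun a b ha hb => ?_
    rcases hs _ _ hne with h2 | h2
    · exact absurd (h2 0 0 (by omega) (by omega)) (by exact not_lt.2 h1.le)
    · exact h2 b a hb ha
  have hRe : IsReal n H := by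
    refine hreal M (fun i => TPT.gN n (s (e' i))) (fun i => TPT.uni_gN n _) hlt'
      (fun i => lam (e' i)) hprob (fun i => ?_) H fun i => hH (e' i)
    have h1 : e' i ∈ S := (hmem _).2 ⟨_, rfl⟩
    exact (Finset.mem_filter.1 h1).2
  refine ⟨hRe, fun φ hφ => ?_⟩
  exact trans_real (g := fun i => TPT.gN n (s (e' i))) (fun i => TPT.uni_gN n _)
    (fun i j hij => hlt' i j (by rw [Fin.lt_def]; omega)) hRe hprob (hH (e' 0)).1
    (fun i => hH (e' i)) φ fun i => hφ (e' i)

end

end Pool.TP
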