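import Pool.Agent.TP.Indep
import Pool.Agent.TPT.Main

/-!
Real points of intersections of Schubert varieties for positive real flags: the total codimension
is at most `k (n - k)`, and the intersection is transverse if it is `k (n - k)`.
Problem MP_0b2914_ag.
-/

namespace Pool.TP

open Module Pool.CSC Matrix

noncomputable section

section
variable {n m : ℕ} {g : Fin m → Matrix (Fin n) (Fin n) ℝ} {H : Submodule ℂ (Vec n)}

/-- Theorem T for a finite family of real matrices -/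
theorem real_indep (hU : ∀ i, TPT.Uni (g i))
    (hP : ∀ i j : Fin m, (i : ℕ) + 1 = j → TPT.Pos n ((g i)⁻¹ * g j))
    (x : Fin m → Matrix (Fin n) (Fin n) ℝ) (hmul : ∀ i j, x i * x j = 0)
    (hsl : ∀ i, SL ((g i)⁻¹ * x i * g i)) (hsum : ∑ i, x i = 0) : ∀ i, x i = 0 := by
  rcases Nat.eq_zero_or_pos m with rfl | hm
  · intro i
    exact i.elim0
  obtain ⟨M, rfl⟩ : ∃ M, m = M + 1 := ⟨m - 1, by omega⟩
  have h := TPT.theoremT (n := n) (M := M)
    (u := fun i => if h : i < M + 1 then g ⟨i, h⟩ else 1)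
    (x := fun i => if h : i < M + 1 then x ⟨i, h⟩ else 0)
    (fun i hi => by
      rw [dif_pos (Nat.lt_succ_of_le hi)]
      exact hU _)
    (fun i hi => by
      rw [dif_pos (by omega : i < M + 1), dif_pos (by omega : i + 1 < M + 1)]
      exact hP _ _ rfl)
    (fun i hi => by
      rw [dif_pos (Nat.lt_succ_of_le hi), dif_pos (Nat.lt_succ_of_le hi)]
      exact hsl _)
    (fun i hi j hj => by
      rw [dif_pos (Nat.lt_succ_of_le hi), dif_pos (Nat.lt_succ_of_le hj)]
      exact hmul _ _)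
    (by
      have h1 : ∑ i ∈ Finset.range (M + 1), (if h : i < M + 1 then x ⟨i, h⟩ else 0) =
          ∑ i, x i := by
        rw [← Fin.sum_univ_eq_sum_range (fun i => if h : i < M + 1 then x ⟨i, h⟩ else 0)]
        exact Finset.sum_congr rfl fun i _ => dif_pos i.2
      rw [h1, hsum]
      intro i j _
      rfl)
  intro i
  have h1 := h i (Nat.le_of_lt_succ i.2)
  rwa [dif_pos i.2] at h1

/-- conormal vectors of a real subspace for positive flags are independent -/
theorem con_indep (hU : ∀ i, TPT.Uni (g i))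
    (hP : ∀ i j : Fin m, (i : ℕ) + 1 = j → TPT.Pos n ((g i)⁻¹ * g j)) (hH : IsReal n H)
    (x : Fin m → Module.End ℂ (Vec n)) (hx : ∀ l, x l ∈ con H (flg (g l)))
    (hsum : ∑ l, x l = 0) : ∀ l, x l = 0 := by
  have hdet : ∀ i, (g i).det ≠ 0 := fun i => by
    rw [UU.det (hU i)]
    exact one_ne_zero
  exact indep_of_real hdet (real_indep hU hP) hH x hx hsum

theorem isFlag_uni {u : Matrix (Fin n) (Fin n) ℝ} (hu : TPT.Uni u) : IsFlag n (flg u) :=
  isFlag_flg (by
    rw [UU.det hu]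
    exact one_ne_zero)

/-- (G), dimensions of conormal spaces -/
theorem sum_con_le (hU : ∀ i, TPT.Uni (g i))
    (hP : ∀ i j : Fin m, (i : ℕ) + 1 = j → TPT.Pos n ((g i)⁻¹ * g j)) (hH : IsReal n H)
    {k : ℕ} (hk : finrank ℂ H = k) :
    ∑ l, finrank ℂ (con H (flg (g l))) ≤ k * (n - k) :=
  sum_finrank_con_le hk (con_indep hU hP hH)

/-- (G), Schubert conditions -/
theorem sum_lam_le (hU : ∀ i, TPT.Uni (g i))
    (hP : ∀ i j : Fin m, (i : ℕ) + 1 = j → TPT.Pos n ((g i)⁻¹ * g j)) (hH : IsReal n H)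
    {k : ℕ} (hk : finrank ℂ H = k) {lam : Fin m → Fin k → ℕ} (hanti : ∀ l, Antitone (lam l))
    (hle : ∀ l i, lam l i ≤ n - k) (hmem : ∀ l, H ∈ schub k n (lam l) (flg (g l))) :
    ∑ l, ∑ i, lam l i ≤ k * (n - k) :=
  (trans_of_indep (fun l => isFlag_uni (hU l)) (con_indep hU hP hH) hanti hle
    (Set.mem_iInter.2 hmem) hk).1

/-- (TT): transversality at real points -/
theorem trans_real (hU : ∀ i, TPT.Uni (g i))
    (hP : ∀ i j : Fin m, (i : ℕ) + 1 = j → TPT.Pos n ((g i)⁻¹ * g j)) (hH : IsReal n H)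
    {k : ℕ} {lam : Fin m → Fin k → ℕ} (hlam : IsProblem k n m lam)
    (hk : finrank ℂ H = k) (hmem : ∀ l, H ∈ schub k n (lam l) (flg (g l)))
    (φ : ↥H →ₗ[ℂ] (Fin n → ℂ) ⧸ H)
    (hφ : ∀ l, TangentTo k n (lam l) (flg (g l)) H φ) : φ = 0 :=
  (trans_of_indep (fun l => isFlag_uni (hU l)) (con_indep hU hP hH) hlam.anti hlam.le
    (Set.mem_iInter.2 hmem) hk).2 hlam.sum φ hφ

end

end

end Pool.TP
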