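import Pool.Agent.TP.CxLB

/-! Sums over injective tuples as sums over increasing tuples and permutations. -/

namespace Pool.TP

open Finset

variable {k n : ℕ}

lemma sum_inj_perm {M : Type*} [AddCommMonoid M] (f : (Fin k → Fin n) → M)
    (hf : ∀ s, ¬ Function.Injective s → f s = 0) [DecidablePred fun s : Fin k → Fin n => StrictMono s] :
    ∑ s, f s = ∑ s : Fin k → Fin n, if StrictMono s then
      ∑ σ : Equiv.Perm (Fin k), f (s ∘ σ) else 0 := by
  classical
  rw [← Finset.sum_filter, Finset.sum_sigma']
  have h1 : ∑ s, f s = ∑ s ∈ univ.filter (fun s : Fin k → Fin n => Function.Injective s), f s := by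
    rw [Finset.sum_filter]
    refine Finset.sum_congr rfl fun s _ => ?_
    split_ifs with h
    · rfl
    · exact hf s h
  rw [h1]
  symm
  refine Finset.sum_bij (fun x _ => x.1 ∘ x.2) ?_ ?_ ?_ ?_
  · rintro ⟨p, σ⟩ hx
    simp only [mem_sigma, mem_filter, mem_univ, true_and, and_true] at hx ⊢
    exact hx.injective.comp σ.injective
  · rintro ⟨p, σ⟩ hx ⟨p', σ'⟩ hx' he
    simp only [mem_sigma, mem_filter, mem_univ, true_and, and_true] at hx hx'
    simp only at he
    have h2 : p = p' := by
      rw [← hx.range_inj hx', ← σ.surjective.range_comp p, ← σ'.surjective.range_comp p', he]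
    subst h2
    have h3 : σ = σ' := by
      ext1 b
      exact hx.injective (congrFun he b)
    rw [h3]
  · intro s hs
    simp only [mem_filter, mem_univ, true_and] at hs
    refine ⟨⟨s ∘ Tuple.sort s, (Tuple.sort s)⁻¹⟩, ?_, ?_⟩
    · simp only [mem_sigma, mem_filter, mem_univ, true_and, and_true]
      exact (Tuple.monotone_sort s).strictMono_of_injective (hs.comp (Tuple.sort s).injective)
    · ext1 b
      simp
  · rintro ⟨p, σ⟩ _
    rfl

end Pool.TP
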