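import Pool.Agent.Helper53.CSC.Flag

/-!
Transversality from independence of the conormal spaces, problem MP_0b2914_ag.
-/

namespace Pool.TP

open Module Pool.CSC

noncomputable section

/-- vectors -/
abbrev Vec (n : ℕ) := Fin n → ℂ

/-- the maps with image in `H` which kill `H`: the cotangent space of the Grassmannian at `H` -/
def cot {n : ℕ} (H : Submodule ℂ (Vec n)) : Submodule ℂ (Module.End ℂ (Vec n)) where
  carrier := {x | (∀ v, x v ∈ H) ∧ ∀ v ∈ H, x v = 0}
  add_mem' := by
    rintro x y ⟨hx, hx'⟩ ⟨hy, hy'⟩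
    refine ⟨fun v => ?_, fun v hv => ?_⟩
    · rw [LinearMap.add_apply]
      exact H.add_mem (hx v) (hy v)
    · rw [LinearMap.add_apply, hx' v hv, hy' v hv, add_zero]
  zero_mem' := ⟨fun v => by simp, fun v _ => by simp⟩
  smul_mem' := by
    rintro c x ⟨hx, hx'⟩
    refine ⟨fun v => ?_, fun v hv => ?_⟩
    · rw [LinearMap.smul_apply]
      exact H.smul_mem c (hx v)
    · rw [LinearMap.smul_apply, hx' v hv, smul_zero]

/-- the conormal space at `H` of the Schubert cell of `H` for the flag `F` -/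
def con {n : ℕ} (H : Submodule ℂ (Vec n)) (F : ℕ → Submodule ℂ (Vec n)) :
    Submodule ℂ (Module.End ℂ (Vec n)) where
  carrier := {x | ((∀ v, x v ∈ H) ∧ ∀ v ∈ H, x v = 0) ∧ ∀ j < n, ∀ v ∈ F (j + 1), x v ∈ F j}
  add_mem' := by
    rintro x y ⟨hx, hx'⟩ ⟨hy, hy'⟩
    refine ⟨(cot H).add_mem hx hy, fun j hj v hv => ?_⟩
    rw [LinearMap.add_apply]
    exact (F j).add_mem (hx' j hj v hv) (hy' j hj v hv)
  zero_mem' := ⟨(cot H).zero_mem, fun j hj v _ => by simp⟩
  smul_mem' := by
    rintro c x ⟨hx, hx'⟩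
    refine ⟨(cot H).smul_mem c hx, fun j hj v hv => ?_⟩
    rw [LinearMap.smul_apply]
    exact (F j).smul_mem c (hx' j hj v hv)

lemma con_le {n : ℕ} (H : Submodule ℂ (Vec n)) (F : ℕ → Submodule ℂ (Vec n)) :
    con H F ≤ cot H := fun _ hx => hx.1

/-- greedy choice of independent vectors -/
lemma exists_indep {n k : ℕ} (S : Fin k → Submodule ℂ (Vec n))
    (hS : ∀ i : Fin k, (i : ℕ) + 1 ≤ finrank ℂ (S i)) :
    ∃ h : Fin k → Vec n, LinearIndependent ℂ h ∧ ∀ i, h i ∈ S i := by
  induction k with
  | zero => exact ⟨fun i => i.elim0, linearIndependent_empty_type, fun i => i.elim0⟩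
  | succ k ih =>
    obtain ⟨h, h1, h2⟩ := ih (fun i => S i.castSucc) fun i => hS i.castSucc
    have h3 : ¬ S (Fin.last k) ≤ Submodule.span ℂ (Set.range h) := by
      intro hle
      have h4 := Submodule.finrank_mono hle
      have h5 := finrank_range_le_card (R := ℂ) h
      have h6 := hS (Fin.last k)
      rw [Fin.val_last] at h6
      rw [Fintype.card_fin] at h5
      rw [Set.finrank] at h5
      omega
    obtain ⟨w, hw, hw'⟩ := SetLike.not_le_iff_exists.1 h3
    refine ⟨Fin.snoc h w, ?_, fun i => ?_⟩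
    · rw [linearIndependent_finSnoc]
      exact ⟨h1, hw'⟩
    · refine Fin.lastCases ?_ (fun i => ?_) i
      · rwa [Fin.snoc_last]
      · rw [Fin.snoc_castSucc]
        exact h2 i

/-- the dimension of the conormal space is at least the codimension of any Schubert variety
containing `H` -/
lemma le_finrank_con {n k : ℕ} {H : Submodule ℂ (Vec n)} (hH : finrank ℂ H = k)
    {F : ℕ → Submodule ℂ (Vec n)} (hF : IsFlag n F) (a : Fin k → ℕ) (ha : ∀ i, a i ≤ n)
    (ha' : ∀ i : Fin k, (i : ℕ) + 1 ≤ finrank ℂ ↥(H ⊓ F (a i))) :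
    ∑ i : Fin k, (n - k + ((i : ℕ) + 1) - a i) ≤ finrank ℂ (con H F) := by
  obtain ⟨h, h1, h2⟩ := exists_indep (fun i => H ⊓ F (a i)) ha'
  -- the annihilators
  have hA : ∀ i : Fin k, n - k + ((i : ℕ) + 1) - a i ≤
      finrank ℂ ((H ⊔ F (a i)).dualAnnihilator) := by
    intro i
    have h3 := Subspace.finrank_add_finrank_dualAnnihilator_eq (H ⊔ F (a i))
    have h4 := Submodule.finrank_sup_add_finrank_inf_eq H (F (a i))
    have h5 := ha' i
    have h6 := hF.dim (a i) (ha i)
    rw [finrank_V] at h3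
    have h7 : finrank ℂ H ≤ n := by
      have := Submodule.finrank_le H
      rwa [finrank_V] at this
    omega
  -- the map
  let Θ : (∀ i : Fin k, ↥((H ⊔ F (a i)).dualAnnihilator)) →ₗ[ℂ] Module.End ℂ (Vec n) :=
    { toFun := fun α => ∑ i, LinearMap.smulRight (α i : Module.Dual ℂ (Vec n)) (h i)
      map_add' := by
        intro α β
        rw [← Finset.sum_add_distrib]
        refine Finset.sum_congr rfl fun i _ => ?_
        ext v
        simp [add_mul]
      map_smul' := by
        intro c α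
        rw [RingHom.id_apply, Finset.smul_sum]
        refine Finset.sum_congr rfl fun i _ => ?_
        ext v
        simp [mul_assoc] }
  have hΘ : ∀ α v, Θ α v = ∑ i, (α i : Module.Dual ℂ (Vec n)) v • h i := by
    intro α v
    simp [Θ, LinearMap.sum_apply]
  have hinj : Function.Injective Θ := by
    rw [← LinearMap.ker_eq_bot, LinearMap.ker_eq_bot']
    intro α hα
    funext i
    refine Subtype.ext (LinearMap.ext fun v => ?_)
    have h3 := hΘ α v
    rw [hα, LinearMap.zero_apply] at h3
    have h4 := Fintype.linearIndependent_iff.1 h1 (fun i => (α i : Module.Dual ℂ (Vec n)) v)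
      h3.symm i
    simpa using h4
  have hmem : ∀ α, Θ α ∈ con H F := by
    intro α
    refine ⟨⟨fun v => ?_, fun v hv => ?_⟩, fun j hj v hv => ?_⟩
    · rw [hΘ]
      exact H.sum_mem fun i _ => H.smul_mem _ (h2 i).1
    · rw [hΘ]
      refine Finset.sum_eq_zero fun i _ => ?_
      have h3 := (Submodule.mem_dualAnnihilator _).1 (α i).2 v (Submodule.mem_sup_left hv)
      rw [h3, zero_smul]
    · rw [hΘ]
      refine (F j).sum_mem fun i _ => ?_
      rcases le_or_gt (j + 1) (a i) with h3 | h3
      · have h4 := (Submodule.mem_dualAnnihilator _).1 (α i).2 v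
          (Submodule.mem_sup_right (hF.mono _ _ h3 (ha i) hv))
        rw [h4, zero_smul]
        exact (F j).zero_mem
      · exact (F j).smul_mem _ (hF.mono _ _ (by omega) (by omega) (h2 i).2)
  have h3 : finrank ℂ (∀ i : Fin k, ↥((H ⊔ F (a i)).dualAnnihilator)) ≤ finrank ℂ (con H F) := by
    refine LinearMap.finrank_le_finrank_of_injective
      (f := LinearMap.codRestrict (con H F) Θ hmem) ?_
    intro α β hαβ
    apply hinj
    have := congrArg Subtype.val hαβ
    simpa using this
  refine le_trans ?_ h3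
  rw [Module.finrank_pi_fintype]
  exact Finset.sum_le_sum fun i _ => hA i

lemma finrank_cot {n k : ℕ} {H : Submodule ℂ (Vec n)} (hH : finrank ℂ H = k) :
    finrank ℂ (cot H) = k * (n - k) := by
  have e : (Vec n ⧸ H →ₗ[ℂ] ↥H) ≃ₗ[ℂ] cot H :=
    { toFun := fun f => ⟨H.subtype ∘ₗ f ∘ₗ H.mkQ, fun v => by simp, fun v hv => by
        have : H.mkQ v = 0 := by simpa using hv
        simp [this]⟩
      map_add' := fun f g => by
        ext v
        simp
      map_smul' := fun c f => by
        ext v
        simp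
      invFun := fun x => H.liftQ (LinearMap.codRestrict H (x : Module.End ℂ (Vec n)) x.2.1)
        (fun v hv => by
          rw [LinearMap.mem_ker]
          ext1
          rw [LinearMap.codRestrict_apply, x.2.2 v hv]
          rfl)
      left_inv := fun f => by
        ext v
        simp
      right_inv := fun x => by
        ext v
        simp }
  rw [← e.finrank_eq, Module.finrank_linearMap, hH, mul_comm]
  congr 1
  have := Submodule.finrank_quotient_add_finrank H
  rw [finrank_V] at this
  omega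

/-- pairing of conormal vectors with tangent vectors -/
lemma trace_zero {n k : ℕ} {lam : Fin k → ℕ} (hanti : Antitone lam) (hle : ∀ i, lam i ≤ n - k)
    {H : Submodule ℂ (Vec n)} {F : ℕ → Submodule ℂ (Vec n)} (hF : IsFlag n F)
    (hH : H ∈ schub k n lam F) (hcon : finrank ℂ (con H F) ≤ ∑ i, lam i)
    {T : Module.End ℂ (Vec n)} (hT : TangentTo k n lam F H (H.mkQ ∘ₗ T ∘ₗ H.subtype))
    {x : Module.End ℂ (Vec n)} (hx : x ∈ con H F) : LinearMap.trace ℂ (Vec n) (x * T) = 0 := by
  have hkn : k ≤ n := by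
    have := Submodule.finrank_le H
    rw [finrank_V, hH.1] at this
    exact this
  have hs1 : ∀ i : Fin k, 1 ≤ sidx k n lam i := fun i => by
    have h1 := hle i
    unfold sidx
    omega
  have hsn : ∀ i : Fin k, sidx k n lam i ≤ n := fun i => by
    have h1 := i.2
    unfold sidx
    omega
  -- `H` is in the open cell
  have hcell : ∀ i : Fin k, finrank ℂ ↥(H ⊓ F (sidx k n lam i - 1)) ≤ i := by
    intro i
    by_contra hcon'
    push Not at hcon'
    classical
    have h1 := le_finrank_con hH.1 hF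
      (fun j => if j = i then sidx k n lam i - 1 else sidx k n lam j)
      (fun j => by
        split_ifs
        · exact (Nat.sub_le _ _).trans (hsn i)
        · exact hsn j)
      (fun j => by
        by_cases hj : j = i
        · subst hj
          rw [if_pos rfl]
          exact hcon'
        · rw [if_neg hj]
          exact hH.2 j)
    have h2 : ∑ j : Fin k, lam j < ∑ j : Fin k, (n - k + ((j : ℕ) + 1) -
        (if j = i then sidx k n lam i - 1 else sidx k n lam j)) := by
      refine Finset.sum_lt_sum (fun j _ => ?_) ⟨i, Finset.mem_univ _, ?_⟩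
      · have h3 := hle j
        split_ifs with hj
        · subst hj
          unfold sidx
          omega
        · unfold sidx
          omega
      · rw [if_pos rfl]
        have h3 := hle i
        unfold sidx
        omega
    omega
  have hstep : ∀ i j : Fin k, (i : ℕ) + 1 = j → sidx k n lam i + 1 ≤ sidx k n lam j := by
    intro i j hij
    have h1 := hle i
    have h2 := hle j
    have h3 : lam j ≤ lam i := hanti (by rw [Fin.le_def]; omega)
    unfold sidx
    omega
  -- dimension of the intersections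
  have hdim : ∀ i : Fin k, finrank ℂ ↥(H ⊓ F (sidx k n lam i)) = (i : ℕ) + 1 := by
    intro i
    refine le_antisymm ?_ (hH.2 i)
    rcases Nat.lt_or_ge ((i : ℕ) + 1) k with h1 | h1
    · have h2 := hcell ⟨(i : ℕ) + 1, h1⟩
      have h3 := hstep i ⟨(i : ℕ) + 1, h1⟩ rfl
      refine le_trans (Submodule.finrank_mono ?_) h2
      exact inf_le_inf le_rfl (hF.mono _ _ (by omega) ((Nat.sub_le _ _).trans (hsn _)))
    · have h2 := Submodule.finrank_mono (inf_le_left : H ⊓ F (sidx k n lam i) ≤ H)
      rw [hH.1] at h2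
      omega
  -- the chain
  have hmap : ∀ i : Fin k, ∀ v ∈ H ⊓ F (sidx k n lam i),
      (x * T) v ∈ H ⊓ F (sidx k n lam i - 1) := by
    intro i v hv
    have h1 := hT i (hdim i) ⟨v, hv.1⟩ hv.2
    obtain ⟨f, hf, hf'⟩ := h1
    have h2 : f - T v ∈ H := by
      rw [← Submodule.Quotient.eq]
      simpa using hf'
    have h3 : x (T v) = x f := by
      have h4 := hx.1.2 _ h2
      rw [map_sub, sub_eq_zero] at h4
      exact h4.symm
    rw [Module.End.mul_apply]
    refine ⟨hx.1.1 _, ?_⟩
    rw [h3]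
    have h4 := hs1 i
    have h5 := hx.2 (sidx k n lam i - 1) (by have := hsn i; omega) f
    rw [Nat.sub_add_cancel h4] at h5
    exact h5 hf
  have hlow : ∀ i : ℕ, ∀ hi : i < k, ∀ v ∈ H ⊓ F (sidx k n lam ⟨i, hi⟩),
      ((x * T) ^ (i + 1)) v = 0 := by
    intro i
    induction i with
    | zero =>
      intro hi v hv
      have h1 := hmap ⟨0, hi⟩ v hv
      have h2 := hcell ⟨0, hi⟩
      have h3 : H ⊓ F (sidx k n lam ⟨0, hi⟩ - 1) = ⊥ :=
        Submodule.finrank_eq_zero.1 (Nat.le_zero.1 h2)
      rw [h3, Submodule.mem_bot] at h1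
      rw [zero_add, pow_one]
      exact h1
    | succ i ih =>
      intro hi v hv
      have h1 := hmap ⟨i + 1, hi⟩ v hv
      have h2 := hcell ⟨i + 1, hi⟩
      have hi' : i < k := by omega
      have h3 := hstep ⟨i, hi'⟩ ⟨i + 1, hi⟩ rfl
      have h4 : H ⊓ F (sidx k n lam ⟨i, hi'⟩) = H ⊓ F (sidx k n lam ⟨i + 1, hi⟩ - 1) := by
        apply Submodule.eq_of_le_of_finrank_le
        · exact inf_le_inf le_rfl (hF.mono _ _ (by omega) ((Nat.sub_le _ _).trans (hsn _)))
        · rw [hdim ⟨i, hi'⟩]
          exact h2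
      rw [← h4] at h1
      have h5 := ih hi' _ h1
      rw [pow_succ, Module.End.mul_apply]
      exact h5
  have hnil : IsNilpotent (x * T) := by
    refine ⟨k + 1, ?_⟩
    apply LinearMap.ext
    intro v
    rw [LinearMap.zero_apply, pow_succ, Module.End.mul_apply]
    have h1 : (x * T) v ∈ H := hx.1.1 _
    rcases Nat.eq_zero_or_pos k with h0 | h0
    · have h2 : H = ⊥ := Submodule.finrank_eq_zero.1 (hH.1.trans h0)
      rw [h2, Submodule.mem_bot] at h1
      rw [h1, map_zero]
    · have h2 : H ⊓ F (sidx k n lam ⟨k - 1, by omega⟩) = H := by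
        apply Submodule.eq_of_le_of_finrank_le inf_le_left
        rw [hdim, hH.1]
        simp only
        omega
      have h3 := hlow (k - 1) (by omega) ((x * T) v) (by rw [h2]; exact h1)
      rw [Nat.sub_add_cancel h0] at h3
      exact h3
  exact (LinearMap.isNilpotent_trace_of_isNilpotent hnil).eq_zero

/-- If conormal vectors of `H` for the flags are independent then the dimensions of the conormal
spaces have sum at most `k (n - k)`, and in case of equality they span the cotangent space. -/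
theorem sum_con_aux {k n m : ℕ} {F : Fin m → ℕ → Submodule ℂ (Vec n)}
    {H : Submodule ℂ (Vec n)} (hk : finrank ℂ H = k)
    (hT : ∀ x : Fin m → Module.End ℂ (Vec n), (∀ l, x l ∈ con H (F l)) → ∑ l, x l = 0 →
      ∀ l, x l = 0) :
    ∑ l, finrank ℂ (con H (F l)) ≤ k * (n - k) ∧
      (k * (n - k) ≤ ∑ l, finrank ℂ (con H (F l)) → ∀ y ∈ cot H,
        ∃ x : Fin m → Module.End ℂ (Vec n), (∀ l, x l ∈ con H (F l)) ∧ ∑ l, x l = y) := by
  let Sg : (∀ l, ↥(con H (F l))) →ₗ[ℂ] Module.End ℂ (Vec n) :=
    ∑ l, (con H (F l)).subtype ∘ₗ LinearMap.proj l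
  have hSg : ∀ x, Sg x = ∑ l, (x l : Module.End ℂ (Vec n)) := by
    intro x
    simp [Sg, LinearMap.sum_apply]
  have hinj : Function.Injective Sg := by
    intro x y h1
    rw [hSg, hSg, ← sub_eq_zero, ← Finset.sum_sub_distrib] at h1
    have h2 := hT (fun l => x l - y l) (fun l => (con H (F l)).sub_mem (x l).2 (y l).2) h1
    funext l
    exact Subtype.ext (sub_eq_zero.1 (h2 l))
  have hrange : LinearMap.range Sg ≤ cot H := by
    rintro _ ⟨x, rfl⟩
    rw [hSg]
    exact (cot H).sum_mem fun l _ => con_le H (F l) (x l).2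
  have hfree : ∀ l, Module.Free ℂ ↥(con H (F l)) := fun l =>
    Module.Free.of_divisionRing ℂ ↥(con H (F l))
  have hrk0 : finrank ℂ (LinearMap.range Sg) = ∑ l, finrank ℂ (con H (F l)) := by
    rw [LinearMap.finrank_range_of_inj hinj, Module.finrank_pi_fintype]
  refine ⟨?_, fun hge y hy => ?_⟩
  · rw [← hrk0, ← finrank_cot hk]
    exact Submodule.finrank_mono hrange
  · have hsurj : LinearMap.range Sg = cot H := by
      refine Submodule.eq_of_le_of_finrank_le hrange ?_
      rw [hrk0, finrank_cot hk]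
      exact hge
    rw [← hsurj] at hy
    obtain ⟨x, hx⟩ := hy
    exact ⟨fun l => x l, fun l => (x l).2, by rw [← hSg, hx]⟩

theorem sum_finrank_con_le {k n m : ℕ} {F : Fin m → ℕ → Submodule ℂ (Vec n)}
    {H : Submodule ℂ (Vec n)} (hk : finrank ℂ H = k)
    (hT : ∀ x : Fin m → Module.End ℂ (Vec n), (∀ l, x l ∈ con H (F l)) → ∑ l, x l = 0 →
      ∀ l, x l = 0) : ∑ l, finrank ℂ (con H (F l)) ≤ k * (n - k) :=
  (sum_con_aux hk hT).1

/-- If conormal vectors of `H` for the flags are independent then `H` satisfies Schubert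
conditions of total codimension at most `k (n - k)`, and if the total codimension is `k (n - k)`
then the intersection of the Schubert varieties is transverse at `H`. -/
theorem trans_of_indep {k n m : ℕ} {F : Fin m → ℕ → Submodule ℂ (Vec n)}
    (hF : ∀ l, IsFlag n (F l)) {H : Submodule ℂ (Vec n)}
    (hT : ∀ x : Fin m → Module.End ℂ (Vec n), (∀ l, x l ∈ con H (F l)) → ∑ l, x l = 0 →
      ∀ l, x l = 0)
    {lam : Fin m → Fin k → ℕ} (hanti : ∀ l, Antitone (lam l)) (hle : ∀ l i, lam l i ≤ n - k)
    (hH : H ∈ ⋂ l, schub k n (lam l) (F l)) (hk : finrank ℂ H = k) :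
    ∑ l, ∑ i, lam l i ≤ k * (n - k) ∧
      (∑ l, ∑ i, lam l i = k * (n - k) → ∀ φ : ↥H →ₗ[ℂ] (Fin n → ℂ) ⧸ H,
        (∀ l, TangentTo k n (lam l) (F l) H φ) → φ = 0) := by
  rw [Set.mem_iInter] at hH
  have hkn : k ≤ n := by
    have := Submodule.finrank_le H
    rw [finrank_V, hk] at this
    exact this
  -- lower bounds
  have hlb : ∀ l, ∑ i, lam l i ≤ finrank ℂ (con H (F l)) := by
    intro l
    have h1 := le_finrank_con hk (hF l) (fun i => sidx k n (lam l) i)
      (fun i => by
        have h1 := i.2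
        unfold sidx
        omega) (hH l).2
    refine le_trans (le_of_eq ?_) h1
    refine Finset.sum_congr rfl fun i _ => ?_
    have h2 := hle l i
    unfold sidx
    omega
  have hrk := (sum_con_aux hk hT).1
  have hsum : ∑ l, ∑ i, lam l i ≤ ∑ l, finrank ℂ (con H (F l)) :=
    Finset.sum_le_sum fun l _ => hlb l
  refine ⟨hsum.trans hrk, fun heq φ hφ => ?_⟩
  have heq' : ∀ l, finrank ℂ (con H (F l)) ≤ ∑ i, lam l i := by
    by_contra hne
    push Not at hne
    obtain ⟨l, hl⟩ := hne
    have := Finset.sum_lt_sum (fun l _ => hlb l) ⟨l, Finset.mem_univ l, hl⟩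
    omega
  -- lift `φ`
  obtain ⟨g, hg⟩ : ∃ g : (Vec n) →ₗ[ℂ] (Vec n) ⧸ H, g ∘ₗ H.subtype = φ :=
    LinearMap.exists_extend φ
  obtain ⟨T, hTT⟩ : ∃ T : Module.End ℂ (Vec n), H.mkQ ∘ₗ T = g :=
    Module.projective_lifting_property H.mkQ g H.mkQ_surjective
  have hφT : φ = H.mkQ ∘ₗ T ∘ₗ H.subtype := by
    rw [← hg, ← hTT]
    rfl
  by_contra hne
  obtain ⟨v, hv⟩ : ∃ v : ↥H, φ v ≠ 0 := by
    by_contra h
    push Not at h
    exact hne (LinearMap.ext h)
  have hTv : T v ∉ H := by
    intro h
    apply hv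
    rw [hφT]
    simpa using h
  obtain ⟨α, hα1, hα2⟩ := Submodule.exists_le_ker_of_notMem hTv
  have hx : LinearMap.smulRight α (v : Vec n) ∈ cot H := by
    refine ⟨fun w => ?_, fun w hw => ?_⟩
    · rw [LinearMap.smulRight_apply]
      exact H.smul_mem _ v.2
    · rw [LinearMap.smulRight_apply]
      have := hα2 hw
      rw [LinearMap.mem_ker] at this
      rw [this, zero_smul]
  obtain ⟨x, hxm, hx''⟩ := (sum_con_aux hk hT).2 (by omega) _ hx
  have h0 : LinearMap.trace ℂ (Vec n) (LinearMap.smulRight α (v : Vec n) * T) = 0 := by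
    rw [← hx'', Finset.sum_mul, map_sum]
    refine Finset.sum_eq_zero fun l _ => ?_
    refine trace_zero (hanti l) (hle l) (hF l) (hH l) (heq' l) ?_ (hxm l)
    rw [← hφT]
    exact hφ l
  have h1 : LinearMap.smulRight α (v : Vec n) * T =
      LinearMap.smulRight (α ∘ₗ T) (v : Vec n) := by
    ext w
    simp
  rw [h1] at h0
  have h2 : LinearMap.trace ℂ (Vec n) (LinearMap.smulRight (α ∘ₗ T) (v : Vec n)) =
      α (T v) := by
    rw [LinearMap.trace_smulRight]
    rfl
  rw [h2] at h0
  exact hα1 h0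

end

end Pool.TP
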